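import Mathlib

/-! Dimension shifting for `Tor`, written with elements: for a flat resolution `F` of `N` with
differentials `d`, the statement `Tor_{i+1}(A, N) = 0` is exactness of `A ⊗ F` at the spot `i+1`. -/

set_option autoImplicit false

open TensorProduct LinearMap

namespace Pool.Agent.T9h65.Dim

variable {R : Type} [CommRing R] {N : Type} [AddCommGroup N] [Module R N]
  {F : ℕ → Type} [∀ i, AddCommGroup (F i)] [∀ i, Module R (F i)]
  {A B C : Type} [AddCommGroup A] [Module R A] [AddCommGroup B] [Module R B]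
  [AddCommGroup C] [Module R C]

/-- `Tor_{i+1}(A, N) = 0`, seen on a resolution of `N`. -/
def TV (d : ∀ i, F (i + 1) →ₗ[R] F i) (A : Type) [AddCommGroup A] [Module R A] (i : ℕ) : Prop :=
  Function.Exact (lTensor A (d (i + 1))) (lTensor A (d i))

theorem lr (f : B →ₗ[R] C) {X Y : Type} [AddCommGroup X] [Module R X] [AddCommGroup Y]
    [Module R Y] (g : X →ₗ[R] Y) (t : B ⊗[R] X) :
    lTensor C g (rTensor X f t) = rTensor Y f (lTensor B g t) := by
  rw [← LinearMap.comp_apply, ← LinearMap.comp_apply, lTensor_comp_rTensor, rTensor_comp_lTensor]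

theorem dd (d : ∀ i, F (i + 1) →ₗ[R] F i) (h1 : ∀ i, Function.Exact (d (i + 1)) (d i)) (i : ℕ)
    (t : B ⊗[R] F (i + 1 + 1)) : lTensor B (d i) (lTensor B (d (i + 1)) t) = 0 := by
  rw [← LinearMap.comp_apply, ← lTensor_comp, (h1 i).linearMap_comp_eq_zero, lTensor_zero,
    LinearMap.zero_apply]

theorem shift_zero (d : ∀ i, F (i + 1) →ₗ[R] F i) (h1 : ∀ i, Function.Exact (d (i + 1)) (d i))
    (ε : F 0 →ₗ[R] N) (h0 : Function.Exact (d 0) ε) (hε : Function.Surjective ε)
    (ι : A →ₗ[R] B) (π : B →ₗ[R] C) (hπ : Function.Surjective π) (hex : Function.Exact ι π)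
    (hN : Function.Injective (rTensor N ι)) (hB : TV d B 0) : TV d C 0 := by
  intro c
  constructor
  · intro hc
    obtain ⟨b, rfl⟩ := rTensor_surjective (F 1) hπ c
    rw [lr] at hc
    obtain ⟨a, ha⟩ := (rTensor_exact (F 0) hex hπ _).1 hc
    have h2 : lTensor A ε a = 0 := by
      apply hN
      rw [map_zero, ← lr, ha, ← LinearMap.comp_apply, ← lTensor_comp, h0.linearMap_comp_eq_zero,
        lTensor_zero, LinearMap.zero_apply]
    obtain ⟨a', rfl⟩ := (lTensor_exact A h0 hε _).1 h2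
    have h3 : lTensor B (d 0) (b - rTensor (F 1) ι a') = 0 := by
      rw [map_sub, lr, ha, sub_self]
    obtain ⟨b', hb'⟩ := (hB _).1 h3
    refine ⟨rTensor _ π b', ?_⟩
    rw [lr, hb', map_sub]
    have : rTensor (F 1) π (rTensor (F 1) ι a') = 0 := by
      rw [← LinearMap.comp_apply, ← rTensor_comp, hex.linearMap_comp_eq_zero, rTensor_zero,
        LinearMap.zero_apply]
    rw [this, sub_zero]
  · rintro ⟨t, rfl⟩
    exact dd d h1 0 t

theorem shift_succ (d : ∀ i, F (i + 1) →ₗ[R] F i) (h1 : ∀ i, Function.Exact (d (i + 1)) (d i))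
    [∀ i, Module.Flat R (F i)]
    (ι : A →ₗ[R] B) (π : B →ₗ[R] C) (hι : Function.Injective ι) (hπ : Function.Surjective π)
    (hex : Function.Exact ι π) (i : ℕ)
    (hA : TV d A i) (hB : TV d B (i + 1)) : TV d C (i + 1) := by
  intro c
  constructor
  · intro hc
    obtain ⟨b, rfl⟩ := rTensor_surjective _ hπ c
    rw [lr] at hc
    obtain ⟨a, ha⟩ := (rTensor_exact _ hex hπ _).1 hc
    have h2 : lTensor A (d i) a = 0 := by
      apply Module.Flat.rTensor_preserves_injective_linearMap (M := F i) ι hι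
      rw [map_zero, ← lr, ha, dd d h1 i]
    obtain ⟨a', rfl⟩ := (hA _).1 h2
    have h3 : lTensor B (d (i + 1)) (b - rTensor _ ι a') = 0 := by
      rw [map_sub, lr, ha, sub_self]
    obtain ⟨b', hb'⟩ := (hB _).1 h3
    refine ⟨rTensor _ π b', ?_⟩
    rw [lr, hb', map_sub]
    have : rTensor (F (i + 1 + 1)) π (rTensor (F (i + 1 + 1)) ι a') = 0 := by
      rw [← LinearMap.comp_apply, ← rTensor_comp, hex.linearMap_comp_eq_zero, rTensor_zero,
        LinearMap.zero_apply]
    rw [this, sub_zero]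
  · rintro ⟨t, rfl⟩
    exact dd d h1 (i + 1) t

theorem ext_closed (d : ∀ i, F (i + 1) →ₗ[R] F i) (h1 : ∀ i, Function.Exact (d (i + 1)) (d i))
    [∀ i, Module.Flat R (F i)]
    (ι : A →ₗ[R] B) (π : B →ₗ[R] C) (hι : Function.Injective ι) (hπ : Function.Surjective π)
    (hex : Function.Exact ι π) (i : ℕ) (hA : TV d A i) (hC : TV d C i) : TV d B i := by
  intro b
  constructor
  · intro hb
    have h2 : lTensor C (d i) (rTensor _ π b) = 0 := by rw [lr, hb, map_zero]
    obtain ⟨c, hc⟩ := (hC _).1 h2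
    obtain ⟨y, rfl⟩ := rTensor_surjective _ hπ c
    have h3 : rTensor _ π (b - lTensor B (d (i + 1)) y) = 0 := by
      rw [map_sub, ← hc, lr, sub_self]
    obtain ⟨a, ha⟩ := (rTensor_exact _ hex hπ _).1 h3
    have h4 : lTensor A (d i) a = 0 := by
      apply Module.Flat.rTensor_preserves_injective_linearMap (M := F i) ι hι
      rw [map_zero, ← lr, ha, map_sub, hb, dd d h1 i, sub_zero]
    obtain ⟨a', rfl⟩ := (hA _).1 h4
    refine ⟨y + rTensor _ ι a', ?_⟩
    rw [map_add, lr, ha, add_sub_cancel]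
  · rintro ⟨t, rfl⟩
    exact dd d h1 i t

theorem tv_flat (d : ∀ i, F (i + 1) →ₗ[R] F i) (h1 : ∀ i, Function.Exact (d (i + 1)) (d i))
    [Module.Flat R A] (i : ℕ) : TV d A i := Module.Flat.lTensor_exact A (h1 i)

theorem tv_prod (d : ∀ i, F (i + 1) →ₗ[R] F i) (h1 : ∀ i, Function.Exact (d (i + 1)) (d i))
    [∀ i, Module.Flat R (F i)] (i : ℕ) (hA : TV d A i) (hB : TV d B i) : TV d (A × B) i :=
  ext_closed d h1 (LinearMap.inl R A B) (LinearMap.snd R A B) LinearMap.inl_injective
    LinearMap.snd_surjective (Function.Exact.inl_snd) i hA hB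

end Pool.Agent.T9h65.Dim
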