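import Mathlib
import Pool.Agent.T9h65.Dim.Shift

/-! The five modules `R/z`, `R/(a,b)`, `(a,b)` and two submodules of `(R/z)^2` are linked by short
exact sequences as soon as `R` is `Good`; if `N` is `Good` too, every `Tor_i(-, N)`, `i ≥ 1`, of
them vanishes. -/

set_option autoImplicit false

open TensorProduct LinearMap

namespace Pool.Agent.T9h65.Dim

variable {R : Type} [CommRing R]

/-- The four exactness conditions. -/
structure Good (a b c d z : R) (X : Type) [AddCommGroup X] [Module R X] : Prop where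
  g1 : ∀ x : X, z • x = 0 → ∃ p q : X, x = a • p + b • q
  g2 : ∀ x1 x2 : X, a • x1 + b • x2 = 0 →
    ∃ y1 y2 s1 s2 : X, x1 = z • y1 + d • s1 + b • s2 ∧ x2 = z • y2 - c • s1 - a • s2
  g3 : ∀ s1 s2 w1 w2 : X, d • s1 + b • s2 = z • w1 → c • s1 + a • s2 = z • w2 →
    ∃ t1 t2 y1 y2 : X, s1 = a • t1 + b • t2 + z • y1 ∧ s2 = z • y2 - c • t1 - d • t2
  g4 : ∀ t1 t2 w1 w2 : X, a • t1 + b • t2 = z • w1 → c • t1 + d • t2 = z • w2 →
    ∃ s1 s2 y1 y2 : X, t1 = d • s1 + b • s2 + z • y1 ∧ t2 = z • y2 - c • s1 - a • s2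

/-- `R/z`. -/
abbrev Rz (z : R) : Type := R ⧸ Ideal.span {z}

/-- the class of `r` in `R/z` -/
abbrev mz (z r : R) : Rz z := Ideal.Quotient.mk (Ideal.span {z}) r

theorem mz_zero (z : R) : mz z z = 0 :=
  Ideal.Quotient.eq_zero_iff_mem.2 (Ideal.mem_span_singleton_self z)

theorem smul_mz (z r s : R) : r • mz z s = mz z (r * s) := rfl

theorem z_smul_Rz (z : R) (t : Rz z) : z • t = 0 := by
  obtain ⟨s, rfl⟩ := Ideal.Quotient.mk_surjective t
  show mz z (z * s) = 0
  exact Ideal.Quotient.eq_zero_iff_mem.2 (Ideal.mul_mem_right _ _ (Ideal.mem_span_singleton_self z))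

/-- `R/z → Y`, `r ↦ r f`. -/
noncomputable def lift1 (z : R) {Y : Type} [AddCommGroup Y] [Module R Y] (f : Y) (hf : z • f = 0) :
    Rz z →ₗ[R] Y :=
  Submodule.liftQ (Ideal.span {z}) (LinearMap.toSpanSingleton R Y f) (by
    rw [Ideal.span_le, Set.singleton_subset_iff]
    simpa using hf)

theorem lift1_mz (z : R) {Y : Type} [AddCommGroup Y] [Module R Y] (f : Y) (hf : z • f = 0) (r : R) :
    lift1 z f hf (mz z r) = r • f := by
  unfold lift1
  exact (Submodule.liftQ_apply _ _ _).trans (by simp)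

section gen
variable {P N : Type} [AddCommGroup P] [Module R P] [AddCommGroup N] [Module R N]

theorem two_gen (f1 f2 : P) (h : ∀ p : P, ∃ r1 r2 : R, p = r1 • f1 + r2 • f2) (t : P ⊗[R] N) :
    ∃ n1 n2 : N, t = f1 ⊗ₜ[R] n1 + f2 ⊗ₜ[R] n2 := by
  induction t with
  | zero => exact ⟨0, 0, by simp⟩
  | tmul p n =>
    obtain ⟨r1, r2, rfl⟩ := h p
    exact ⟨r1 • n, r2 • n, by rw [add_tmul, smul_tmul, smul_tmul]⟩
  | add x y hx hy =>
    obtain ⟨n1, n2, rfl⟩ := hx
    obtain ⟨m1, m2, rfl⟩ := hy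
    exact ⟨n1 + m1, n2 + m2, by rw [tmul_add, tmul_add]; abel⟩

theorem one_gen (f : P) (h : ∀ p : P, ∃ r : R, p = r • f) (t : P ⊗[R] N) :
    ∃ n : N, t = f ⊗ₜ[R] n := by
  induction t with
  | zero => exact ⟨0, by simp⟩
  | tmul p n =>
    obtain ⟨r, rfl⟩ := h p
    exact ⟨r • n, by rw [smul_tmul]⟩
  | add x y hx hy =>
    obtain ⟨n1, rfl⟩ := hx
    obtain ⟨m1, rfl⟩ := hy
    exact ⟨n1 + m1, by rw [tmul_add]⟩

/-- `zN` -/
abbrev zN (z : R) (N : Type) [AddCommGroup N] [Module R N] : Submodule R N :=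
  LinearMap.range (z • (LinearMap.id : N →ₗ[R] N))

/-- `(R/z)^2 ⊗ N → N/zN`, first coordinate -/
noncomputable def ev1 (z : R) (N : Type) [AddCommGroup N] [Module R N] :
    (Rz z × Rz z) ⊗[R] N →ₗ[R] N ⧸ zN z N :=
  TensorProduct.lift ((lift1 z (zN z N).mkQ (by
    ext n
    simp only [LinearMap.smul_apply, Submodule.mkQ_apply, LinearMap.zero_apply]
    rw [← Submodule.Quotient.mk_smul, Submodule.Quotient.mk_eq_zero]
    exact ⟨n, by simp⟩)).comp (LinearMap.fst R (Rz z) (Rz z)))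

/-- `(R/z)^2 ⊗ N → N/zN`, second coordinate -/
noncomputable def ev2 (z : R) (N : Type) [AddCommGroup N] [Module R N] :
    (Rz z × Rz z) ⊗[R] N →ₗ[R] N ⧸ zN z N :=
  TensorProduct.lift ((lift1 z (zN z N).mkQ (by
    ext n
    simp only [LinearMap.smul_apply, Submodule.mkQ_apply, LinearMap.zero_apply]
    rw [← Submodule.Quotient.mk_smul, Submodule.Quotient.mk_eq_zero]
    exact ⟨n, by simp⟩)).comp (LinearMap.snd R (Rz z) (Rz z)))

theorem ev1_tmul (z r s : R) (n : N) :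
    ev1 z N ((mz z r, mz z s) ⊗ₜ[R] n) = (zN z N).mkQ (r • n) := by
  unfold ev1
  rw [TensorProduct.lift.tmul, LinearMap.comp_apply, LinearMap.fst_apply, lift1_mz,
    LinearMap.smul_apply, map_smul]

theorem ev2_tmul (z r s : R) (n : N) :
    ev2 z N ((mz z r, mz z s) ⊗ₜ[R] n) = (zN z N).mkQ (s • n) := by
  unfold ev2
  rw [TensorProduct.lift.tmul, LinearMap.comp_apply, LinearMap.snd_apply, lift1_mz,
    LinearMap.smul_apply, map_smul]

theorem mem_zN {z : R} {n : N} (h : (zN z N).mkQ n = 0) : ∃ w : N, n = z • w := by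
  rw [Submodule.mkQ_apply, Submodule.Quotient.mk_eq_zero] at h
  obtain ⟨w, hw⟩ := h
  exact ⟨w, by rw [← hw]; simp⟩

end gen

section main

variable (a b c d z : R)

/-- First submodule of `(R/z)^2`. -/
abbrev P1 : Submodule R (Rz z × Rz z) := Submodule.span R {(mz z d, mz z (-c)), (mz z b, mz z (-a))}
/-- Second submodule of `(R/z)^2`. -/
abbrev P2 : Submodule R (Rz z × Rz z) := Submodule.span R {(mz z a, mz z (-c)), (mz z b, mz z (-d))}

/-- the ideal `(a, b)` -/
abbrev P0 : Ideal R := Ideal.span {a, b}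

def f1 : P1 a b c d z := ⟨(mz z d, mz z (-c)), Submodule.subset_span (by simp)⟩
def f2 : P1 a b c d z := ⟨(mz z b, mz z (-a)), Submodule.subset_span (by simp)⟩
def e1 : P2 a b c d z := ⟨(mz z a, mz z (-c)), Submodule.subset_span (by simp)⟩
def e2 : P2 a b c d z := ⟨(mz z b, mz z (-d)), Submodule.subset_span (by simp)⟩
def i1 : P0 a b := ⟨a, Ideal.subset_span (by simp)⟩
def i2 : P0 a b := ⟨b, Ideal.subset_span (by simp)⟩

theorem gen1 (p : P1 a b c d z) : ∃ r1 r2 : R, p = r1 • f1 a b c d z + r2 • f2 a b c d z := by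
  obtain ⟨p, hp⟩ := p
  obtain ⟨r1, r2, h⟩ := Submodule.mem_span_pair.1 hp
  exact ⟨r1, r2, Subtype.ext h.symm⟩

theorem gen2 (p : P2 a b c d z) : ∃ r1 r2 : R, p = r1 • e1 a b c d z + r2 • e2 a b c d z := by
  obtain ⟨p, hp⟩ := p
  obtain ⟨r1, r2, h⟩ := Submodule.mem_span_pair.1 hp
  exact ⟨r1, r2, Subtype.ext h.symm⟩

theorem gen0 (p : P0 a b) : ∃ r1 r2 : R, p = r1 • i1 a b + r2 • i2 a b := by
  obtain ⟨p, hp⟩ := p
  obtain ⟨r1, r2, h⟩ := Submodule.mem_span_pair.1 hp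
  exact ⟨r1, r2, Subtype.ext h.symm⟩

theorem zsmul_prod (t : Rz z × Rz z) : z • t = 0 := by
  ext
  · exact z_smul_Rz z t.1
  · exact z_smul_Rz z t.2

theorem zsmul_sub (S : Submodule R (Rz z × Rz z)) (t : S) : z • t = 0 :=
  Subtype.ext (zsmul_prod z t.1)

section inj

variable {a b c d z : R} {N : Type} [AddCommGroup N] [Module R N]

/-- `R/(a,b) → R`, multiplication by `z`. -/
noncomputable def mulz (h2 : z * a = 0) (h3 : z * b = 0) : (R ⧸ P0 a b) →ₗ[R] R :=
  Submodule.liftQ (P0 a b) (LinearMap.toSpanSingleton R R z) (by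
    rw [Ideal.span_le]
    rintro x (rfl | rfl)
    · simpa [mul_comm] using h2
    · simpa [mul_comm] using h3)

theorem mulz_mk (h2 : z * a = 0) (h3 : z * b = 0) (r : R) :
    mulz h2 h3 (Ideal.Quotient.mk _ r) = r * z := by
  unfold mulz
  exact (Submodule.liftQ_apply _ _ _).trans (by simp)

theorem inj_alpha (h2 : z * a = 0) (h3 : z * b = 0) (hN : Good a b c d z N) :
    Function.Injective (rTensor N (mulz (a := a) (b := b) (z := z) h2 h3)) := by
  rw [injective_iff_map_eq_zero]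
  intro t ht
  obtain ⟨n, rfl⟩ := one_gen (R := R) (N := N) (Ideal.Quotient.mk (P0 a b) 1) (fun p => by
    obtain ⟨r, rfl⟩ := Ideal.Quotient.mk_surjective p
    exact ⟨r, by
      rw [← mul_one r]
      exact (congrArg _ (mul_one _).symm).trans rfl⟩) t
  rw [rTensor_tmul, mulz_mk, one_mul] at ht
  have h4 : z • n = 0 := by
    have := congrArg (TensorProduct.lid R N) ht
    simpa using this
  obtain ⟨p, q, rfl⟩ := hN.g1 n h4
  rw [tmul_add, ← smul_tmul, ← smul_tmul]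
  have e1 : a • (Ideal.Quotient.mk (P0 a b) 1) = 0 :=
    Ideal.Quotient.eq_zero_iff_mem.2 (Ideal.mul_mem_right _ _ (Ideal.subset_span (by simp)))
  have e2 : b • (Ideal.Quotient.mk (P0 a b) 1) = 0 :=
    Ideal.Quotient.eq_zero_iff_mem.2 (Ideal.mul_mem_right _ _ (Ideal.subset_span (by simp)))
  rw [e1, e2, zero_tmul, zero_tmul, add_zero]

theorem key {P : Type} [AddCommGroup P] [Module R P] (u v : P) (α β : R) (n : N) :
    u ⊗ₜ[R] (α • n) + v ⊗ₜ[R] (β • n) = (α • u + β • v) ⊗ₜ[R] n := by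
  rw [add_tmul, smul_tmul, smul_tmul]

theorem inj_beta (h1 : a * d = b * c) (h2 : z * a = 0) (h3 : z * b = 0)
    (hN : Good a b c d z N) : Function.Injective (rTensor N (P0 a b).subtype) := by
  rw [injective_iff_map_eq_zero]
  intro t ht
  obtain ⟨n1, n2, rfl⟩ := two_gen (i1 a b) (i2 a b) (gen0 a b) t
  have h4 : a • n1 + b • n2 = 0 := by
    have := congrArg (TensorProduct.lid R N) ht
    simpa [i1, i2] using this
  obtain ⟨y1, y2, s1, s2, rfl, rfl⟩ := hN.g2 n1 n2 h4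
  have k1 : z • i1 a b = 0 := Subtype.ext h2
  have k2 : z • i2 a b = 0 := Subtype.ext h3
  have k3 : d • i1 a b + (-c) • i2 a b = 0 := Subtype.ext (by
    show d * a + (-c) * b = 0
    linear_combination h1)
  have k4 : b • i1 a b + (-a) • i2 a b = 0 := Subtype.ext (by
    show b * a + (-a) * b = 0
    ring)
  have : i1 a b ⊗ₜ[R] (z • y1 + d • s1 + b • s2) + i2 a b ⊗ₜ[R] (z • y2 - c • s1 - a • s2) =
      (z • i1 a b) ⊗ₜ[R] y1 + (z • i2 a b) ⊗ₜ[R] y2 + (d • i1 a b + (-c) • i2 a b) ⊗ₜ[R] s1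
        + (b • i1 a b + (-a) • i2 a b) ⊗ₜ[R] s2 := by
    rw [← key, ← key, smul_tmul, smul_tmul, neg_smul, neg_smul, tmul_neg, tmul_neg, tmul_add,
      tmul_add, tmul_sub, tmul_sub]
    abel
  rw [this, k1, k2, k3, k4]
  simp

theorem inj_gamma (h1 : a * d = b * c) (hN : Good a b c d z N) :
    Function.Injective (rTensor N (P1 a b c d z).subtype) := by
  rw [injective_iff_map_eq_zero]
  intro t ht
  obtain ⟨n1, n2, rfl⟩ := two_gen (f1 a b c d z) (f2 a b c d z) (gen1 a b c d z) t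
  rw [map_add, rTensor_tmul, rTensor_tmul] at ht
  have h4 : (zN z N).mkQ (d • n1 + b • n2) = 0 := by
    have := congrArg (ev1 z N) ht
    rw [map_add, map_zero] at this
    rw [map_add, ← this]
    exact (congrArg₂ (· + ·) (ev1_tmul z d (-c) n1) (ev1_tmul z b (-a) n2)).symm
  have h5 : (zN z N).mkQ ((-c) • n1 + (-a) • n2) = 0 := by
    have := congrArg (ev2 z N) ht
    rw [map_add, map_zero] at this
    rw [map_add, ← this]
    exact (congrArg₂ (· + ·) (ev2_tmul z d (-c) n1) (ev2_tmul z b (-a) n2)).symm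
  obtain ⟨w1, hw1⟩ := mem_zN h4
  obtain ⟨w2, hw2⟩ := mem_zN h5
  obtain ⟨s1, s2, y1, y2, rfl, rfl⟩ := hN.g3 n1 n2 w1 (-w2) hw1 (by
    rw [smul_neg, ← hw2, neg_smul, neg_smul]; abel)
  have k1 : ∀ t : P1 a b c d z, z • t = 0 := zsmul_sub z _
  have k3 : a • f1 a b c d z + (-c) • f2 a b c d z = 0 := Subtype.ext (by
    ext
    · show mz z (a * d + (-c) * b) = 0
      rw [show a * d + (-c) * b = 0 by linear_combination h1]; exact map_zero _
    · show mz z (a * (-c) + (-c) * (-a)) = 0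
      rw [show a * (-c) + (-c) * (-a) = 0 by ring]; exact map_zero _)
  have k4 : b • f1 a b c d z + (-d) • f2 a b c d z = 0 := Subtype.ext (by
    ext
    · show mz z (b * d + (-d) * b) = 0
      rw [show b * d + (-d) * b = 0 by ring]; exact map_zero _
    · show mz z (b * (-c) + (-d) * (-a)) = 0
      rw [show b * (-c) + (-d) * (-a) = 0 by linear_combination h1]; exact map_zero _)
  have : f1 a b c d z ⊗ₜ[R] (a • s1 + b • s2 + z • y1) +
      f2 a b c d z ⊗ₜ[R] (z • y2 - c • s1 - d • s2) =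
      (z • f1 a b c d z) ⊗ₜ[R] y1 + (z • f2 a b c d z) ⊗ₜ[R] y2 +
        (a • f1 a b c d z + (-c) • f2 a b c d z) ⊗ₜ[R] s1
        + (b • f1 a b c d z + (-d) • f2 a b c d z) ⊗ₜ[R] s2 := by
    rw [← key, ← key, smul_tmul, smul_tmul, neg_smul, neg_smul, tmul_neg, tmul_neg, tmul_add,
      tmul_add, tmul_sub, tmul_sub]
    abel
  rw [this, k1, k1, k3, k4]
  simp

theorem inj_delta (h1 : a * d = b * c) (hN : Good a b c d z N) :
    Function.Injective (rTensor N (P2 a b c d z).subtype) := by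
  rw [injective_iff_map_eq_zero]
  intro t ht
  obtain ⟨n1, n2, rfl⟩ := two_gen (e1 a b c d z) (e2 a b c d z) (gen2 a b c d z) t
  rw [map_add, rTensor_tmul, rTensor_tmul] at ht
  have h4 : (zN z N).mkQ (a • n1 + b • n2) = 0 := by
    have := congrArg (ev1 z N) ht
    rw [map_add, map_zero] at this
    rw [map_add, ← this]
    exact (congrArg₂ (· + ·) (ev1_tmul z a (-c) n1) (ev1_tmul z b (-d) n2)).symm
  have h5 : (zN z N).mkQ ((-c) • n1 + (-d) • n2) = 0 := by
    have := congrArg (ev2 z N) ht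
    rw [map_add, map_zero] at this
    rw [map_add, ← this]
    exact (congrArg₂ (· + ·) (ev2_tmul z a (-c) n1) (ev2_tmul z b (-d) n2)).symm
  obtain ⟨w1, hw1⟩ := mem_zN h4
  obtain ⟨w2, hw2⟩ := mem_zN h5
  obtain ⟨s1, s2, y1, y2, rfl, rfl⟩ := hN.g4 n1 n2 w1 (-w2) hw1 (by
    rw [smul_neg, ← hw2, neg_smul, neg_smul]; abel)
  have k1 : ∀ t : P2 a b c d z, z • t = 0 := zsmul_sub z _
  have k3 : d • e1 a b c d z + (-c) • e2 a b c d z = 0 := Subtype.ext (by
    ext
    · show mz z (d * a + (-c) * b) = 0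
      rw [show d * a + (-c) * b = 0 by linear_combination h1]; exact map_zero _
    · show mz z (d * (-c) + (-c) * (-d)) = 0
      rw [show d * (-c) + (-c) * (-d) = 0 by ring]; exact map_zero _)
  have k4 : b • e1 a b c d z + (-a) • e2 a b c d z = 0 := Subtype.ext (by
    ext
    · show mz z (b * a + (-a) * b) = 0
      rw [show b * a + (-a) * b = 0 by ring]; exact map_zero _
    · show mz z (b * (-c) + (-a) * (-d)) = 0
      rw [show b * (-c) + (-a) * (-d) = 0 by linear_combination h1]; exact map_zero _)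
  have : e1 a b c d z ⊗ₜ[R] (d • s1 + b • s2 + z • y1) +
      e2 a b c d z ⊗ₜ[R] (z • y2 - c • s1 - a • s2) =
      (z • e1 a b c d z) ⊗ₜ[R] y1 + (z • e2 a b c d z) ⊗ₜ[R] y2 +
        (d • e1 a b c d z + (-c) • e2 a b c d z) ⊗ₜ[R] s1
        + (b • e1 a b c d z + (-a) • e2 a b c d z) ⊗ₜ[R] s2 := by
    rw [← key, ← key, smul_tmul, smul_tmul, neg_smul, neg_smul, tmul_neg, tmul_neg, tmul_add,
      tmul_add, tmul_sub, tmul_sub]
    abel
  rw [this, k1, k1, k3, k4]
  simp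

end inj

end main

end Pool.Agent.T9h65.Dim
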