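import Mathlib
import Pool.Agent.T9h65.Dim.Chain

/-! `Good` for the ring `Q / (ad - bc, za, zb)` and its stability under localization. -/

set_option autoImplicit false

namespace Pool.Agent.T9h65.Dim

section quot

variable {Q : Type} [CommRing Q]

/-- the ideal `(ad - bc, za, zb)` -/
abbrev II (a b c d z : Q) : Ideal Q := Ideal.span {a * d - b * c, z * a, z * b}

theorem mem_II {a b c d z x : Q} : x ∈ II a b c d z ↔
    ∃ q1 q2 q3 : Q, x = (a * d - b * c) * q1 + z * a * q2 + z * b * q3 := by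
  unfold II
  rw [Ideal.mem_span_insert]
  constructor
  · rintro ⟨q1, t, ht, rfl⟩
    obtain ⟨q2, q3, rfl⟩ := Ideal.mem_span_pair.1 ht
    exact ⟨q1, q2, q3, by ring⟩
  · rintro ⟨q1, q2, q3, rfl⟩
    exact ⟨q1, z * a * q2 + z * b * q3, Ideal.mem_span_pair.2 ⟨q2, q3, by ring⟩, by ring⟩

theorem good_quot [IsDomain Q] (a b c d z : Q) (hz : Prime z) (ha : Prime a) (hab : ¬ a ∣ b)
    (hzD : ¬ z ∣ a * d - b * c) :
    Good (Ideal.Quotient.mk (II a b c d z) a) (Ideal.Quotient.mk (II a b c d z) b)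
      (Ideal.Quotient.mk (II a b c d z) c) (Ideal.Quotient.mk (II a b c d z) d)
      (Ideal.Quotient.mk (II a b c d z) z) (Q ⧸ II a b c d z) := by
  have cz : ∀ q : Q, z ∣ (a * d - b * c) * q → z ∣ q := fun q h =>
    (hz.dvd_or_dvd h).resolve_left hzD
  have ca : ∀ s : Q, a ∣ b * s → a ∣ s := fun s h => (ha.dvd_or_dvd h).resolve_left hab
  have rep : ∀ {u v : Q}, Ideal.Quotient.mk (II a b c d z) u = Ideal.Quotient.mk (II a b c d z) v →
      ∃ q1 q2 q3 : Q, u = v + ((a * d - b * c) * q1 + z * a * q2 + z * b * q3) := by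
    intro u v h
    obtain ⟨q1, q2, q3, h'⟩ := mem_II.1 (Ideal.Quotient.eq.1 h)
    exact ⟨q1, q2, q3, by rw [← h']; ring⟩
  have rep' : ∀ {u v : Q}, (∃ q1 q2 q3 : Q, u = v + ((a * d - b * c) * q1 + z * a * q2 + z * b * q3))
      → Ideal.Quotient.mk (II a b c d z) u = Ideal.Quotient.mk (II a b c d z) v := by
    rintro u v ⟨q1, q2, q3, h⟩
    exact Ideal.Quotient.eq.2 (mem_II.2 ⟨q1, q2, q3, by rw [h]; ring⟩)
  constructor
  · intro x hx
    obtain ⟨r, rfl⟩ := Ideal.Quotient.mk_surjective x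
    rw [smul_eq_mul, ← map_mul] at hx
    obtain ⟨q1, q2, q3, h⟩ := mem_II.1 (Ideal.Quotient.eq_zero_iff_mem.1 hx)
    obtain ⟨q, rfl⟩ := cz q1 ⟨r - a * q2 - b * q3, by linear_combination -h⟩
    have h2 : r = (a * d - b * c) * q + a * q2 + b * q3 := by
      apply mul_left_cancel₀ hz.ne_zero
      linear_combination h
    refine ⟨Ideal.Quotient.mk _ (d * q + q2), Ideal.Quotient.mk _ (-c * q + q3), ?_⟩
    rw [smul_eq_mul, smul_eq_mul, ← map_mul, ← map_mul, ← map_add, h2]
    congr 1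
    ring
  · intro x1 x2 hx
    obtain ⟨r1, rfl⟩ := Ideal.Quotient.mk_surjective x1
    obtain ⟨r2, rfl⟩ := Ideal.Quotient.mk_surjective x2
    rw [smul_eq_mul, smul_eq_mul, ← map_mul, ← map_mul, ← map_add] at hx
    obtain ⟨q1, q2, q3, h⟩ := mem_II.1 (Ideal.Quotient.eq_zero_iff_mem.1 hx)
    obtain ⟨s, hs⟩ := ca (r2 + c * q1 - z * q3) ⟨-(r1 - d * q1 - z * q2), by
      linear_combination h⟩
    have h2 : r1 = z * q2 + d * q1 + b * (-s) := by
      apply mul_left_cancel₀ ha.ne_zero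
      linear_combination h - b * hs
    refine ⟨Ideal.Quotient.mk _ q2, Ideal.Quotient.mk _ q3, Ideal.Quotient.mk _ q1,
      Ideal.Quotient.mk _ (-s), ?_, ?_⟩
    · simp only [smul_eq_mul, ← map_mul, ← map_add]
      rw [h2]
    · simp only [smul_eq_mul, ← map_mul, ← map_sub]
      congr 1
      linear_combination hs
  · intro x1 x2 x3 x4 hx hy
    obtain ⟨s1, rfl⟩ := Ideal.Quotient.mk_surjective x1
    obtain ⟨s2, rfl⟩ := Ideal.Quotient.mk_surjective x2
    obtain ⟨w1, rfl⟩ := Ideal.Quotient.mk_surjective x3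
    obtain ⟨w2, rfl⟩ := Ideal.Quotient.mk_surjective x4
    simp only [smul_eq_mul, ← map_mul, ← map_add] at hx hy
    obtain ⟨q1, q2, q3, h⟩ := rep hx
    obtain ⟨p1, p2, p3, k⟩ := rep hy
    obtain ⟨y1, hy1⟩ := cz (s1 - a * q1 + b * p1)
      ⟨a * w1 - b * w2 + a * (a * q2 + b * q3) - b * (a * p2 + b * p3), by
        linear_combination a * h - b * k⟩
    obtain ⟨y2, hy2⟩ := cz (s2 - d * p1 + c * q1)
      ⟨d * w2 - c * w1 + d * (a * p2 + b * p3) - c * (a * q2 + b * q3), by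
        linear_combination d * k - c * h⟩
    refine ⟨Ideal.Quotient.mk _ q1, Ideal.Quotient.mk _ (-p1), Ideal.Quotient.mk _ y1,
      Ideal.Quotient.mk _ y2, ?_, ?_⟩
    · simp only [smul_eq_mul, ← map_mul, ← map_add]
      congr 1
      linear_combination hy1
    · simp only [smul_eq_mul, ← map_mul, ← map_sub]
      congr 1
      linear_combination hy2
  · intro x1 x2 x3 x4 hx hy
    obtain ⟨t1, rfl⟩ := Ideal.Quotient.mk_surjective x1
    obtain ⟨t2, rfl⟩ := Ideal.Quotient.mk_surjective x2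
    obtain ⟨w1, rfl⟩ := Ideal.Quotient.mk_surjective x3
    obtain ⟨w2, rfl⟩ := Ideal.Quotient.mk_surjective x4
    simp only [smul_eq_mul, ← map_mul, ← map_add] at hx hy
    obtain ⟨q1, q2, q3, h⟩ := rep hx
    obtain ⟨p1, p2, p3, k⟩ := rep hy
    obtain ⟨y1, hy1⟩ := cz (t1 - d * q1 + b * p1)
      ⟨d * w1 - b * w2 + d * (a * q2 + b * q3) - b * (a * p2 + b * p3), by
        linear_combination d * h - b * k⟩
    obtain ⟨y2, hy2⟩ := cz (t2 - a * p1 + c * q1)
      ⟨a * w2 - c * w1 + a * (a * p2 + b * p3) - c * (a * q2 + b * q3), by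
        linear_combination a * k - c * h⟩
    refine ⟨Ideal.Quotient.mk _ q1, Ideal.Quotient.mk _ (-p1), Ideal.Quotient.mk _ y1,
      Ideal.Quotient.mk _ y2, ?_, ?_⟩
    · simp only [smul_eq_mul, ← map_mul, ← map_add]
      congr 1
      linear_combination hy1
    · simp only [smul_eq_mul, ← map_mul, ← map_sub]
      congr 1
      linear_combination hy2

end quot

section loc

variable {R : Type} [CommRing R] (S : Submonoid R) {X X' : Type} [AddCommGroup X] [Module R X]
  [AddCommGroup X'] [Module R X'] (f : X →ₗ[R] X') [IsLocalizedModule S f]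

include S f

/-- common denominators for up to four elements -/
theorem denom4 (x1 x2 x3 x4 : X') : ∃ (s : S) (m1 m2 m3 m4 : X), (s : R) • x1 = f m1 ∧
    (s : R) • x2 = f m2 ∧ (s : R) • x3 = f m3 ∧ (s : R) • x4 = f m4 := by
  obtain ⟨⟨m1, s1⟩, h1⟩ := IsLocalizedModule.surj S f x1
  obtain ⟨⟨m2, s2⟩, h2⟩ := IsLocalizedModule.surj S f x2
  obtain ⟨⟨m3, s3⟩, h3⟩ := IsLocalizedModule.surj S f x3
  obtain ⟨⟨m4, s4⟩, h4⟩ := IsLocalizedModule.surj S f x4
  simp only [Submonoid.smul_def] at h1 h2 h3 h4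
  refine ⟨s1 * s2 * s3 * s4, ((s2 * s3 * s4 : S) : R) • m1, ((s1 * s3 * s4 : S) : R) • m2,
    ((s1 * s2 * s4 : S) : R) • m3, ((s1 * s2 * s3 : S) : R) • m4, ?_, ?_, ?_, ?_⟩
  · rw [map_smul, ← h1, smul_smul]; congr 1; push_cast; ring
  · rw [map_smul, ← h2, smul_smul]; congr 1; push_cast; ring
  · rw [map_smul, ← h3, smul_smul]; congr 1; push_cast; ring
  · rw [map_smul, ← h4, smul_smul]; congr 1

theorem scale (s : S) {x y : X'} (h : (s : R) • x = (s : R) • y) : x = y :=
  IsLocalizedModule.smul_injective f s h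

theorem divide (s : S) (x : X') : ∃ y : X', (s : R) • y = x := by
  have h := IsLocalizedModule.map_units f s
  rw [Module.End.isUnit_iff] at h
  obtain ⟨y, hy⟩ := h.2 x
  exact ⟨y, hy⟩

theorem good_loc {a b c d z : R} (hX : Good a b c d z X) : Good a b c d z X' := by
  have tor : ∀ m : X, f m = 0 → ∃ s : S, (s : R) • m = 0 := by
    intro m hm
    obtain ⟨s, hs⟩ := (IsLocalizedModule.eq_zero_iff S f).1 hm
    exact ⟨s, hs⟩
  constructor
  · intro x hx
    obtain ⟨s, m, -, -, -, hm, -, -, -⟩ := denom4 S f x 0 0 0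
    obtain ⟨u, hu⟩ := tor (z • m) (by rw [map_smul, ← hm, smul_comm, hx, smul_zero])
    obtain ⟨p, q, hpq⟩ := hX.g1 ((u : R) • m) (by rw [smul_comm, hu])
    obtain ⟨p', hp⟩ := divide S f (u * s) (f p)
    obtain ⟨q', hq⟩ := divide S f (u * s) (f q)
    refine ⟨p', q', scale S f (u * s) ?_⟩
    rw [smul_add, smul_comm _ a, smul_comm _ b, hp, hq, ← map_smul, ← map_smul, ← map_add, ← hpq,
      map_smul, ← hm, smul_smul]
    rfl
  · intro x1 x2 hx
    obtain ⟨s, m1, m2, -, -, h1, h2, -, -⟩ := denom4 S f x1 x2 0 0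
    obtain ⟨u, hu⟩ := tor (a • m1 + b • m2) (by
      rw [map_add, map_smul, map_smul, ← h1, ← h2, smul_comm a, smul_comm b, ← smul_add, hx,
        smul_zero])
    obtain ⟨y1, y2, s1, s2, e1, e2⟩ := hX.g2 ((u : R) • m1) ((u : R) • m2) (by
      rw [smul_comm a, smul_comm b, ← smul_add, hu])
    obtain ⟨y1', hy1⟩ := divide S f (u * s) (f y1)
    obtain ⟨y2', hy2⟩ := divide S f (u * s) (f y2)
    obtain ⟨s1', hs1⟩ := divide S f (u * s) (f s1)
    obtain ⟨s2', hs2⟩ := divide S f (u * s) (f s2)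
    refine ⟨y1', y2', s1', s2', scale S f (u * s) ?_, scale S f (u * s) ?_⟩
    · rw [smul_add, smul_add, smul_comm _ z, smul_comm _ d, smul_comm _ b, hy1, hs1, hs2,
        ← map_smul, ← map_smul, ← map_smul, ← map_add, ← map_add, ← e1, map_smul, ← h1, smul_smul]
      rfl
    · rw [smul_sub, smul_sub, smul_comm _ z, smul_comm _ c, smul_comm _ a, hy2, hs1, hs2,
        ← map_smul, ← map_smul, ← map_smul, ← map_sub, ← map_sub, ← e2, map_smul, ← h2, smul_smul]
      rfl
  · intro x1 x2 x3 x4 hx hy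
    obtain ⟨s, m1, m2, m3, m4, h1, h2, h3, h4⟩ := denom4 S f x1 x2 x3 x4
    obtain ⟨u, hu⟩ := tor (d • m1 + b • m2 - z • m3) (by
      rw [map_sub, map_add, map_smul, map_smul, map_smul, ← h1, ← h2, ← h3, smul_comm d,
        smul_comm b, smul_comm z, ← smul_add, hx, sub_self])
    obtain ⟨v, hv⟩ := tor (c • m1 + a • m2 - z • m4) (by
      rw [map_sub, map_add, map_smul, map_smul, map_smul, ← h1, ← h2, ← h4, smul_comm c,
        smul_comm a, smul_comm z, ← smul_add, hy, sub_self])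
    obtain ⟨y1, y2, s1, s2, e1, e2⟩ := hX.g3 (((u * v : S) : R) • m1) (((u * v : S) : R) • m2)
      (((u * v : S) : R) • m3) (((u * v : S) : R) • m4) (by
        rw [smul_comm d, smul_comm b, smul_comm z, ← smul_add, ← sub_eq_zero, ← smul_sub,
          Submonoid.coe_mul, mul_comm, mul_smul, hu, smul_zero]) (by
        rw [smul_comm c, smul_comm a, smul_comm z, ← smul_add, ← sub_eq_zero, ← smul_sub,
          Submonoid.coe_mul, mul_smul, hv, smul_zero])
    obtain ⟨y1', hy1⟩ := divide S f (u * v * s) (f y1)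
    obtain ⟨y2', hy2⟩ := divide S f (u * v * s) (f y2)
    obtain ⟨s1', hs1⟩ := divide S f (u * v * s) (f s1)
    obtain ⟨s2', hs2⟩ := divide S f (u * v * s) (f s2)
    refine ⟨y1', y2', s1', s2', scale S f (u * v * s) ?_, scale S f (u * v * s) ?_⟩
    · rw [smul_add, smul_add, smul_comm _ a, smul_comm _ b, smul_comm _ z, hy1, hy2, hs1,
        ← map_smul, ← map_smul, ← map_smul, ← map_add, ← map_add, ← e1, map_smul, ← h1, smul_smul]
      rfl
    · rw [smul_sub, smul_sub, smul_comm _ z, smul_comm _ c, smul_comm _ d, hy1, hy2, hs2,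
        ← map_smul, ← map_smul, ← map_smul, ← map_sub, ← map_sub, ← e2, map_smul, ← h2, smul_smul]
      rfl
  · intro x1 x2 x3 x4 hx hy
    obtain ⟨s, m1, m2, m3, m4, h1, h2, h3, h4⟩ := denom4 S f x1 x2 x3 x4
    obtain ⟨u, hu⟩ := tor (a • m1 + b • m2 - z • m3) (by
      rw [map_sub, map_add, map_smul, map_smul, map_smul, ← h1, ← h2, ← h3, smul_comm a,
        smul_comm b, smul_comm z, ← smul_add, hx, sub_self])
    obtain ⟨v, hv⟩ := tor (c • m1 + d • m2 - z • m4) (by
      rw [map_sub, map_add, map_smul, map_smul, map_smul, ← h1, ← h2, ← h4, smul_comm c,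
        smul_comm d, smul_comm z, ← smul_add, hy, sub_self])
    obtain ⟨y1, y2, s1, s2, e1, e2⟩ := hX.g4 (((u * v : S) : R) • m1) (((u * v : S) : R) • m2)
      (((u * v : S) : R) • m3) (((u * v : S) : R) • m4) (by
        rw [smul_comm a, smul_comm b, smul_comm z, ← smul_add, ← sub_eq_zero, ← smul_sub,
          Submonoid.coe_mul, mul_comm, mul_smul, hu, smul_zero]) (by
        rw [smul_comm c, smul_comm d, smul_comm z, ← smul_add, ← sub_eq_zero, ← smul_sub,
          Submonoid.coe_mul, mul_smul, hv, smul_zero])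
    obtain ⟨y1', hy1⟩ := divide S f (u * v * s) (f y1)
    obtain ⟨y2', hy2⟩ := divide S f (u * v * s) (f y2)
    obtain ⟨s1', hs1⟩ := divide S f (u * v * s) (f s1)
    obtain ⟨s2', hs2⟩ := divide S f (u * v * s) (f s2)
    refine ⟨y1', y2', s1', s2', scale S f (u * v * s) ?_, scale S f (u * v * s) ?_⟩
    · rw [smul_add, smul_add, smul_comm _ d, smul_comm _ b, smul_comm _ z, hy1, hy2, hs1,
        ← map_smul, ← map_smul, ← map_smul, ← map_add, ← map_add, ← e1, map_smul, ← h1, smul_smul]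
      rfl
    · rw [smul_sub, smul_sub, smul_comm _ z, smul_comm _ c, smul_comm _ a, hy1, hy2, hs2,
        ← map_smul, ← map_smul, ← map_smul, ← map_sub, ← map_sub, ← e2, map_smul, ← h2, smul_smul]
      rfl

end loc

end Pool.Agent.T9h65.Dim
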