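import Mathlib
import Pool.Agent.T9h65.Dim.GoodRing

/-! The module `N`: underlying space `k[z] ⊕ k^10`, five commuting endomorphisms. -/

set_option autoImplicit false

open Polynomial

namespace Pool.Agent.T9h65.Dim

/-- coordinates `(f, p1, p3, A1, A2, A3, B1, B2, B3, e, e')` -/
abbrev NN : Type := ℚ[X] × ℚ × ℚ × ℚ × ℚ × ℚ × ℚ × ℚ × ℚ × ℚ × ℚ

/-- constructor -/
abbrev mk (f : ℚ[X]) (p1 p3 A1 A2 A3 B1 B2 B3 e e' : ℚ) : NN :=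
  (f, p1, p3, A1, A2, A3, B1, B2, B3, e, e')

theorem mk_add (f p1 p3 A1 A2 A3 B1 B2 B3 e e' f' p1' p3' A1' A2' A3' B1' B2' B3' E E') :
    mk f p1 p3 A1 A2 A3 B1 B2 B3 e e' + mk f' p1' p3' A1' A2' A3' B1' B2' B3' E E' =
    mk (f + f') (p1 + p1') (p3 + p3') (A1 + A1') (A2 + A2') (A3 + A3') (B1 + B1') (B2 + B2')
      (B3 + B3') (e + E) (e' + E') := rfl

theorem mk_sub (f p1 p3 A1 A2 A3 B1 B2 B3 e e' f' p1' p3' A1' A2' A3' B1' B2' B3' E E') :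
    mk f p1 p3 A1 A2 A3 B1 B2 B3 e e' - mk f' p1' p3' A1' A2' A3' B1' B2' B3' E E' =
    mk (f - f') (p1 - p1') (p3 - p3') (A1 - A1') (A2 - A2') (A3 - A3') (B1 - B1') (B2 - B2')
      (B3 - B3') (e - E) (e' - E') := rfl

theorem mk_smul (r : ℚ) (f p1 p3 A1 A2 A3 B1 B2 B3 e e') :
    r • mk f p1 p3 A1 A2 A3 B1 B2 B3 e e' =
    mk (r • f) (r * p1) (r * p3) (r * A1) (r * A2) (r * A3) (r * B1) (r * B2)
      (r * B3) (r * e) (r * e') := rfl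

theorem mk_zero : (0 : NN) = mk 0 0 0 0 0 0 0 0 0 0 0 := rfl

theorem mk_inj {f p1 p3 A1 A2 A3 B1 B2 B3 e e' f' p1' p3' A1' A2' A3' B1' B2' B3' E E'} :
    mk f p1 p3 A1 A2 A3 B1 B2 B3 e e' = mk f' p1' p3' A1' A2' A3' B1' B2' B3' E E' ↔
    f = f' ∧ p1 = p1' ∧ p3 = p3' ∧ A1 = A1' ∧ A2 = A2' ∧ A3 = A3' ∧ B1 = B1' ∧ B2 = B2' ∧
      B3 = B3' ∧ e = E ∧ e' = E' := by
  simp only [Prod.mk.injEq]

theorem mk_surj (n : NN) : ∃ f p1 p3 A1 A2 A3 B1 B2 B3 e e',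
    n = mk f p1 p3 A1 A2 A3 B1 B2 B3 e e' :=
  match n with
  | (f, p1, p3, A1, A2, A3, B1, B2, B3, e, e') =>
    ⟨f, p1, p3, A1, A2, A3, B1, B2, B3, e, e', rfl⟩

/-- underlying functions -/
noncomputable def fa : NN → NN
  | (f, p1, p3, A1, _, A3, _, B2, _, _, _) =>
    mk 0 0 0 p1 (f.coeff 0) p3 0 0 0 (A1 + B2) (A3 + B2)
/-- underlying functions -/
noncomputable def fb : NN → NN
  | (f, p1, p3, _, A2, _, B1, _, B3, _, _) =>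
    mk 0 0 0 0 0 0 p1 (f.coeff 0) p3 (A2 + B3) (A2 + B1)
/-- underlying functions -/
noncomputable def fc : NN → NN
  | (f, _, p3, _, _, A3, _, B2, _, _, _) =>
    mk 0 0 0 0 (f.coeff 0) p3 0 0 (-f.coeff 0) 0 (A3 + B2)
/-- underlying functions -/
noncomputable def fd : NN → NN
  | (f, p1, _, _, A2, _, B1, _, _, _, _) =>
    mk 0 0 0 0 0 (f.coeff 0) p1 0 0 0 (A2 + B1)
/-- underlying functions -/
noncomputable def fz : NN → NN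
  | (f, p1, p3, _, _, _, _, _, _, _, _) =>
    mk (X * f) 0 0 p1 p3 p1 (-p3) (-p1) (-p3) (-p3) (-p1)

theorem fa_mk (f p1 p3 A1 A2 A3 B1 B2 B3 e e') : fa (mk f p1 p3 A1 A2 A3 B1 B2 B3 e e') =
    mk 0 0 0 p1 (f.coeff 0) p3 0 0 0 (A1 + B2) (A3 + B2) := rfl
theorem fb_mk (f p1 p3 A1 A2 A3 B1 B2 B3 e e') : fb (mk f p1 p3 A1 A2 A3 B1 B2 B3 e e') =
    mk 0 0 0 0 0 0 p1 (f.coeff 0) p3 (A2 + B3) (A2 + B1) := rfl
theorem fc_mk (f p1 p3 A1 A2 A3 B1 B2 B3 e e') : fc (mk f p1 p3 A1 A2 A3 B1 B2 B3 e e') =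
    mk 0 0 0 0 (f.coeff 0) p3 0 0 (-f.coeff 0) 0 (A3 + B2) := rfl
theorem fd_mk (f p1 p3 A1 A2 A3 B1 B2 B3 e e') : fd (mk f p1 p3 A1 A2 A3 B1 B2 B3 e e') =
    mk 0 0 0 0 0 (f.coeff 0) p1 0 0 0 (A2 + B1) := rfl
theorem fz_mk (f p1 p3 A1 A2 A3 B1 B2 B3 e e') : fz (mk f p1 p3 A1 A2 A3 B1 B2 B3 e e') =
    mk (X * f) 0 0 p1 p3 p1 (-p3) (-p1) (-p3) (-p3) (-p1) := rfl

/-- build an endomorphism -/
noncomputable def mkEnd (g : NN → NN) (h1 : ∀ x y, g (x + y) = g x + g y)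
    (h2 : ∀ (r : ℚ) x, g (r • x) = r • g x) : Module.End ℚ NN :=
  { toFun := g, map_add' := h1, map_smul' := h2 }

noncomputable def ga : Module.End ℚ NN := mkEnd fa
  (fun x y => by
    obtain ⟨f, p1, p3, A1, A2, A3, B1, B2, B3, e, e', rfl⟩ := mk_surj x
    obtain ⟨g, q1, q3, C1, C2, C3, D1, D2, D3, u, u', rfl⟩ := mk_surj y
    simp only [mk_add, fa_mk, mk_inj, coeff_add]
    refine ⟨?_, ?_, ?_, ?_, ?_, ?_, ?_, ?_, ?_, ?_, ?_⟩ <;> first | rfl | ring1 | simp)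
  (fun r x => by
    obtain ⟨f, p1, p3, A1, A2, A3, B1, B2, B3, e, e', rfl⟩ := mk_surj x
    simp only [mk_smul, fa_mk, mk_inj, coeff_smul, smul_zero, smul_eq_mul]
    refine ⟨?_, ?_, ?_, ?_, ?_, ?_, ?_, ?_, ?_, ?_, ?_⟩ <;> first | rfl | ring1 | simp)
noncomputable def gb : Module.End ℚ NN := mkEnd fb
  (fun x y => by
    obtain ⟨f, p1, p3, A1, A2, A3, B1, B2, B3, e, e', rfl⟩ := mk_surj x
    obtain ⟨g, q1, q3, C1, C2, C3, D1, D2, D3, u, u', rfl⟩ := mk_surj y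
    simp only [mk_add, fb_mk, mk_inj, coeff_add]
    refine ⟨?_, ?_, ?_, ?_, ?_, ?_, ?_, ?_, ?_, ?_, ?_⟩ <;> first | rfl | ring1 | simp)
  (fun r x => by
    obtain ⟨f, p1, p3, A1, A2, A3, B1, B2, B3, e, e', rfl⟩ := mk_surj x
    simp only [mk_smul, fb_mk, mk_inj, coeff_smul, smul_zero, smul_eq_mul]
    refine ⟨?_, ?_, ?_, ?_, ?_, ?_, ?_, ?_, ?_, ?_, ?_⟩ <;> first | rfl | ring1 | simp)
noncomputable def gc : Module.End ℚ NN := mkEnd fc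
  (fun x y => by
    obtain ⟨f, p1, p3, A1, A2, A3, B1, B2, B3, e, e', rfl⟩ := mk_surj x
    obtain ⟨g, q1, q3, C1, C2, C3, D1, D2, D3, u, u', rfl⟩ := mk_surj y
    simp only [mk_add, fc_mk, mk_inj, coeff_add]
    refine ⟨?_, ?_, ?_, ?_, ?_, ?_, ?_, ?_, ?_, ?_, ?_⟩ <;> first | rfl | ring1 | simp)
  (fun r x => by
    obtain ⟨f, p1, p3, A1, A2, A3, B1, B2, B3, e, e', rfl⟩ := mk_surj x
    simp only [mk_smul, fc_mk, mk_inj, coeff_smul, smul_zero, smul_eq_mul]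
    refine ⟨?_, ?_, ?_, ?_, ?_, ?_, ?_, ?_, ?_, ?_, ?_⟩ <;> first | rfl | ring1 | simp)
noncomputable def gd : Module.End ℚ NN := mkEnd fd
  (fun x y => by
    obtain ⟨f, p1, p3, A1, A2, A3, B1, B2, B3, e, e', rfl⟩ := mk_surj x
    obtain ⟨g, q1, q3, C1, C2, C3, D1, D2, D3, u, u', rfl⟩ := mk_surj y
    simp only [mk_add, fd_mk, mk_inj, coeff_add]
    refine ⟨?_, ?_, ?_, ?_, ?_, ?_, ?_, ?_, ?_, ?_, ?_⟩ <;> first | rfl | ring1 | simp)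
  (fun r x => by
    obtain ⟨f, p1, p3, A1, A2, A3, B1, B2, B3, e, e', rfl⟩ := mk_surj x
    simp only [mk_smul, fd_mk, mk_inj, coeff_smul, smul_zero, smul_eq_mul]
    refine ⟨?_, ?_, ?_, ?_, ?_, ?_, ?_, ?_, ?_, ?_, ?_⟩ <;> first | rfl | ring1 | simp)
noncomputable def gz : Module.End ℚ NN := mkEnd fz
  (fun x y => by
    obtain ⟨f, p1, p3, A1, A2, A3, B1, B2, B3, e, e', rfl⟩ := mk_surj x
    obtain ⟨g, q1, q3, C1, C2, C3, D1, D2, D3, u, u', rfl⟩ := mk_surj y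
    simp only [mk_add, fz_mk, mk_inj]
    refine ⟨?_, ?_, ?_, ?_, ?_, ?_, ?_, ?_, ?_, ?_, ?_⟩ <;> first | rfl | ring1 | simp)
  (fun r x => by
    obtain ⟨f, p1, p3, A1, A2, A3, B1, B2, B3, e, e', rfl⟩ := mk_surj x
    rw [mk_smul, fz_mk, fz_mk, mk_smul, mk_inj]
    refine ⟨mul_smul_comm _ _ _, ?_, ?_, ?_, ?_, ?_, ?_, ?_, ?_, ?_, ?_⟩ <;>
      first | rfl | ring1 | simp)

theorem ga_apply (n : NN) : ga n = fa n := rfl
theorem gb_apply (n : NN) : gb n = fb n := rfl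
theorem gc_apply (n : NN) : gc n = fc n := rfl
theorem gd_apply (n : NN) : gd n = fd n := rfl
theorem gz_apply (n : NN) : gz n = fz n := rfl

/-- the five endomorphisms -/
noncomputable def gg : Fin 5 → Module.End ℚ NN := ![ga, gb, gc, gd, gz]

theorem gg_comm (i j : Fin 5) : gg i * gg j = gg j * gg i := by
  refine LinearMap.ext fun n => ?_
  obtain ⟨f, p1, p3, A1, A2, A3, B1, B2, B3, e, e', rfl⟩ := mk_surj n
  fin_cases i <;> fin_cases j <;>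
    simp only [gg, Fin.zero_eta, Fin.mk_one, Fin.reduceFinMk, Matrix.cons_val, Matrix.cons_val_zero,
      Matrix.cons_val_one, Module.End.mul_apply, ga_apply, gb_apply, gc_apply, gd_apply, gz_apply,
      fa_mk, fb_mk, fc_mk, fd_mk, fz_mk, coeff_zero, mul_coeff_zero, coeff_X_zero, zero_mul,
      mul_zero] <;>
    first
    | rfl
    | (rw [mk_inj]
       refine ⟨?_, ?_, ?_, ?_, ?_, ?_, ?_, ?_, ?_, ?_, ?_⟩ <;> first | rfl | ring1 | simp)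

end Pool.Agent.T9h65.Dim
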