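import Mathlib
import Pool.Agent.T9h65.Dim.ModN

/-! `N` as a module over `R₀ = ℚ[a,b,c,d,z]/(ad - bc, za, zb)`. -/

set_option autoImplicit false

open Polynomial

namespace Pool.Agent.T9h65.Dim

/-- the polynomial ring in `a, b, c, d, z` -/
abbrev Po : Type := MvPolynomial (Fin 5) ℚ

theorem gg_comm' : ∀ x ∈ Set.range gg, ∀ y ∈ Set.range gg, x * y = y * x := by
  rintro _ ⟨i, rfl⟩ _ ⟨j, rfl⟩
  exact gg_comm i j

open scoped IsMulCommutative in
/-- polynomials acting on `N` -/
noncomputable def phi : Po →ₐ[ℚ] Module.End ℚ NN :=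
  haveI := Algebra.isMulCommutative_adjoin ℚ gg_comm'
  (Algebra.adjoin ℚ (Set.range gg)).val.comp
    (MvPolynomial.aeval (fun i => ⟨gg i, Algebra.subset_adjoin ⟨i, rfl⟩⟩))

open scoped IsMulCommutative in
theorem phi_X (i : Fin 5) : phi (MvPolynomial.X i) = gg i := by
  have := Algebra.isMulCommutative_adjoin ℚ gg_comm'
  exact congrArg Subtype.val (MvPolynomial.aeval_X (R := ℚ)
    (fun i => (⟨gg i, Algebra.subset_adjoin ⟨i, rfl⟩⟩ : Algebra.adjoin ℚ (Set.range gg))) i)

/-- variables -/
noncomputable abbrev va : Po := MvPolynomial.X 0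
/-- variables -/
noncomputable abbrev vb : Po := MvPolynomial.X 1
/-- variables -/
noncomputable abbrev vc : Po := MvPolynomial.X 2
/-- variables -/
noncomputable abbrev vd : Po := MvPolynomial.X 3
/-- variables -/
noncomputable abbrev vz : Po := MvPolynomial.X 4

theorem phi_a : phi va = ga := phi_X 0
theorem phi_b : phi vb = gb := phi_X 1
theorem phi_c : phi vc = gc := phi_X 2
theorem phi_d : phi vd = gd := phi_X 3
theorem phi_z : phi vz = gz := phi_X 4

/-- the ideal -/
noncomputable abbrev I0 : Ideal Po := II va vb vc vd vz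

/-- the ring before localizing -/
abbrev R0 : Type := Po ⧸ I0

theorem rel1 : ga * gd = gb * gc := by
  refine LinearMap.ext fun n => ?_
  obtain ⟨f, p1, p3, A1, A2, A3, B1, B2, B3, e, e', rfl⟩ := mk_surj n
  simp only [Module.End.mul_apply, ga_apply, gb_apply, gc_apply, gd_apply, fa_mk, fb_mk, fc_mk,
    fd_mk, coeff_zero]
  rw [mk_inj]
  refine ⟨?_, ?_, ?_, ?_, ?_, ?_, ?_, ?_, ?_, ?_, ?_⟩ <;> first | rfl | ring1

theorem rel2 : gz * ga = 0 := by
  refine LinearMap.ext fun n => ?_
  obtain ⟨f, p1, p3, A1, A2, A3, B1, B2, B3, e, e', rfl⟩ := mk_surj n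
  rw [LinearMap.zero_apply, mk_zero]
  simp only [Module.End.mul_apply, ga_apply, gz_apply, fa_mk, fz_mk, mul_zero, neg_zero]

theorem rel3 : gz * gb = 0 := by
  refine LinearMap.ext fun n => ?_
  obtain ⟨f, p1, p3, A1, A2, A3, B1, B2, B3, e, e', rfl⟩ := mk_surj n
  rw [LinearMap.zero_apply, mk_zero]
  simp only [Module.End.mul_apply, gb_apply, gz_apply, fb_mk, fz_mk, mul_zero, neg_zero]

/-- `R₀` acting on `N` -/
noncomputable def psi : R0 →+* Module.End ℚ NN :=
  Ideal.Quotient.lift I0 (phi : Po →+* Module.End ℚ NN) (by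
    intro x hx
    obtain ⟨q1, q2, q3, rfl⟩ := mem_II.1 hx
    rw [map_add, map_add, map_mul, map_mul, map_mul, map_mul, map_mul, map_sub, map_mul, map_mul]
    simp only [RingHom.coe_coe, phi_a, phi_b, phi_c, phi_d, phi_z]
    rw [rel1, rel2, rel3, sub_self, zero_mul, zero_mul, zero_mul, add_zero, add_zero])

theorem psi_mk (p : Po) : psi (Ideal.Quotient.mk I0 p) = phi p := rfl

noncomputable instance modN : Module R0 NN := Module.compHom NN psi

theorem smul_def (r : R0) (n : NN) : r • n = psi r n := rfl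

/-- generators of the ring -/
noncomputable abbrev ra : R0 := Ideal.Quotient.mk I0 va
/-- generators of the ring -/
noncomputable abbrev rb : R0 := Ideal.Quotient.mk I0 vb
/-- generators of the ring -/
noncomputable abbrev rc : R0 := Ideal.Quotient.mk I0 vc
/-- generators of the ring -/
noncomputable abbrev rd : R0 := Ideal.Quotient.mk I0 vd
/-- generators of the ring -/
noncomputable abbrev rz : R0 := Ideal.Quotient.mk I0 vz

theorem ra_smul (n : NN) : ra • n = fa n := by rw [smul_def, psi_mk, phi_a, ga_apply]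
theorem rb_smul (n : NN) : rb • n = fb n := by rw [smul_def, psi_mk, phi_b, gb_apply]
theorem rc_smul (n : NN) : rc • n = fc n := by rw [smul_def, psi_mk, phi_c, gc_apply]
theorem rd_smul (n : NN) : rd • n = fd n := by rw [smul_def, psi_mk, phi_d, gd_apply]
theorem rz_smul (n : NN) : rz • n = fz n := by rw [smul_def, psi_mk, phi_z, gz_apply]

theorem rC_smul (r : ℚ) (n : NN) : (Ideal.Quotient.mk I0 (MvPolynomial.C r) : R0) • n = r • n := by
  rw [smul_def, psi_mk, ← MvPolynomial.algebraMap_eq, AlgHom.commutes, Module.algebraMap_end_apply]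

end Pool.Agent.T9h65.Dim
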