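import Mathlib
import Pool.Agent.T9h65.Dim.ModN2

/-! `N` is generated by three elements; maps out of `R₀`. -/

set_option autoImplicit false

open Polynomial

namespace Pool.Agent.T9h65.Dim

/-- generators -/
noncomputable abbrev m1 : NN := mk 0 1 0 0 0 0 0 0 0 0 0
/-- generators -/
noncomputable abbrev m2 : NN := mk 1 0 0 0 0 0 0 0 0 0 0
/-- generators -/
noncomputable abbrev m3 : NN := mk 0 0 1 0 0 0 0 0 0 0 0

theorem span_m : Submodule.span R0 {m1, m2, m3} = (⊤ : Submodule R0 NN) := by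
  rw [eq_top_iff]
  intro n _
  set S : Submodule R0 NN := Submodule.span R0 {m1, m2, m3} with hS
  have h1 : m1 ∈ S := Submodule.subset_span (by simp)
  have h2 : m2 ∈ S := Submodule.subset_span (by simp)
  have h3 : m3 ∈ S := Submodule.subset_span (by simp)
  have hq : ∀ (r : ℚ) (x : NN), x ∈ S → r • x ∈ S := by
    intro r x hx
    rw [← rC_smul]
    exact S.smul_mem _ hx
  have hpoly : ∀ f : ℚ[X], mk f 0 0 0 0 0 0 0 0 0 0 ∈ S := by
    intro f
    induction f using Polynomial.induction_on with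
    | C a =>
      have := hq a m2 h2
      rw [mk_smul] at this
      convert this using 1
      rw [mk_inj]
      refine ⟨?_, ?_, ?_, ?_, ?_, ?_, ?_, ?_, ?_, ?_, ?_⟩
      · rw [smul_eq_C_mul, mul_one]
      all_goals simp
    | add p q hp hq' =>
      have := S.add_mem hp hq'
      rw [mk_add] at this
      simpa using this
    | monomial n a h =>
      have := S.smul_mem rz h
      rw [rz_smul, fz_mk] at this
      convert this using 1
      rw [mk_inj]
      refine ⟨?_, ?_, ?_, ?_, ?_, ?_, ?_, ?_, ?_, ?_, ?_⟩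
      · ring
      all_goals simp
  have a1 : mk 0 0 0 1 0 0 0 0 0 0 0 ∈ S := by
    have := S.smul_mem ra h1
    rw [ra_smul, fa_mk] at this
    simpa using this
  have a2 : mk 0 0 0 0 1 0 0 0 0 0 0 ∈ S := by
    have := S.smul_mem ra h2
    rw [ra_smul, fa_mk] at this
    simpa using this
  have a3 : mk 0 0 0 0 0 1 0 0 0 0 0 ∈ S := by
    have := S.smul_mem ra h3
    rw [ra_smul, fa_mk] at this
    simpa using this
  have b1 : mk 0 0 0 0 0 0 1 0 0 0 0 ∈ S := by
    have := S.smul_mem rb h1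
    rw [rb_smul, fb_mk] at this
    simpa using this
  have b2 : mk 0 0 0 0 0 0 0 1 0 0 0 ∈ S := by
    have := S.smul_mem rb h2
    rw [rb_smul, fb_mk] at this
    simpa using this
  have b3 : mk 0 0 0 0 0 0 0 0 1 0 0 ∈ S := by
    have := S.smul_mem rb h3
    rw [rb_smul, fb_mk] at this
    simpa using this
  have c1 : mk 0 0 0 0 0 0 0 0 0 1 0 ∈ S := by
    have := S.smul_mem ra a1
    rw [ra_smul, fa_mk] at this
    simpa using this
  have c2 : mk 0 0 0 0 0 0 0 0 0 0 1 ∈ S := by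
    have := S.smul_mem ra a3
    rw [ra_smul, fa_mk] at this
    simpa using this
  obtain ⟨f, p1, p3, A1, A2, A3, B1, B2, B3, e, e', rfl⟩ := mk_surj n
  have : mk f p1 p3 A1 A2 A3 B1 B2 B3 e e' = mk f 0 0 0 0 0 0 0 0 0 0 + p1 • m1 + p3 • m3 +
      A1 • mk 0 0 0 1 0 0 0 0 0 0 0 + A2 • mk 0 0 0 0 1 0 0 0 0 0 0 +
      A3 • mk 0 0 0 0 0 1 0 0 0 0 0 + B1 • mk 0 0 0 0 0 0 1 0 0 0 0 +
      B2 • mk 0 0 0 0 0 0 0 1 0 0 0 + B3 • mk 0 0 0 0 0 0 0 0 1 0 0 +
      e • mk 0 0 0 0 0 0 0 0 0 1 0 + e' • mk 0 0 0 0 0 0 0 0 0 0 1 := by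
    simp only [mk_smul, mk_add]
    rw [mk_inj]
    refine ⟨?_, ?_, ?_, ?_, ?_, ?_, ?_, ?_, ?_, ?_, ?_⟩ <;> simp
  rw [this]
  exact S.add_mem (S.add_mem (S.add_mem (S.add_mem (S.add_mem (S.add_mem (S.add_mem (S.add_mem
    (S.add_mem (S.add_mem (hpoly f) (hq _ _ h1)) (hq _ _ h3)) (hq _ _ a1)) (hq _ _ a2))
    (hq _ _ a3)) (hq _ _ b1)) (hq _ _ b2)) (hq _ _ b3)) (hq _ _ c1)) (hq _ _ c2)

instance finN : Module.Finite R0 NN :=
  ⟨Submodule.fg_def.2 ⟨{m1, m2, m3}, Set.toFinite _, span_m⟩⟩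

section homs

variable {D : Type} [CommRing D] [Algebra ℚ D]

/-- maps out of `R₀` -/
noncomputable def toD (v : Fin 5 → D) (h1 : v 0 * v 3 = v 1 * v 2) (h2 : v 4 * v 0 = 0)
    (h3 : v 4 * v 1 = 0) : R0 →+* D :=
  Ideal.Quotient.lift I0 (MvPolynomial.aeval v : Po →ₐ[ℚ] D).toRingHom (by
    intro x hx
    obtain ⟨q1, q2, q3, rfl⟩ := mem_II.1 hx
    simp only [AlgHom.toRingHom_eq_coe, RingHom.coe_coe, map_add, map_mul, map_sub,
      MvPolynomial.aeval_X]
    rw [h1, h2, h3]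
    ring)

theorem toD_mk (v : Fin 5 → D) (h1 : v 0 * v 3 = v 1 * v 2) (h2 : v 4 * v 0 = 0)
    (h3 : v 4 * v 1 = 0) (p : Po) :
    toD v h1 h2 h3 (Ideal.Quotient.mk I0 p) = MvPolynomial.aeval v p := rfl

theorem toD_X (v : Fin 5 → D) (h1 : v 0 * v 3 = v 1 * v 2) (h2 : v 4 * v 0 = 0)
    (h3 : v 4 * v 1 = 0) (i : Fin 5) :
    toD v h1 h2 h3 (Ideal.Quotient.mk I0 (MvPolynomial.X i)) = v i := by
  rw [toD_mk, MvPolynomial.aeval_X]

theorem toD_comp {E : Type} [CommRing E] [Algebra ℚ E] (v : Fin 5 → D)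
    (h1 : v 0 * v 3 = v 1 * v 2) (h2 : v 4 * v 0 = 0)
    (h3 : v 4 * v 1 = 0) (w : Fin 5 → E)
    (k1 : w 0 * w 3 = w 1 * w 2) (k2 : w 4 * w 0 = 0)
    (k3 : w 4 * w 1 = 0) (s : D →ₐ[ℚ] E) (hs : ∀ i, s (v i) = w i) (r : R0) :
    s (toD v h1 h2 h3 r) = toD w k1 k2 k3 r := by
  obtain ⟨p, rfl⟩ := Ideal.Quotient.mk_surjective r
  rw [toD_mk, toD_mk, ← AlgHom.comp_apply]
  congr 1
  ext i
  rw [AlgHom.comp_apply, MvPolynomial.aeval_X, MvPolynomial.aeval_X, hs]

theorem toD_ker_le {E : Type} [CommRing E] [Algebra ℚ E] (v : Fin 5 → D)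
    (h1 : v 0 * v 3 = v 1 * v 2) (h2 : v 4 * v 0 = 0)
    (h3 : v 4 * v 1 = 0) (w : Fin 5 → E)
    (k1 : w 0 * w 3 = w 1 * w 2) (k2 : w 4 * w 0 = 0)
    (k3 : w 4 * w 1 = 0) (s : D →ₐ[ℚ] E) (hs : ∀ i, s (v i) = w i) :
    RingHom.ker (toD v h1 h2 h3) ≤ RingHom.ker (toD w k1 k2 k3) := by
  intro r hr
  rw [RingHom.mem_ker] at hr ⊢
  rw [← toD_comp v h1 h2 h3 w k1 k2 k3 s hs r, hr, map_zero]

end homs

/-- the origin -/
noncomputable def ev0 : R0 →+* ℚ := toD (fun _ => (0 : ℚ)) (by simp) (by simp) (by simp)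

/-- the maximal ideal of the origin -/
noncomputable def mm : Ideal R0 := RingHom.ker ev0

instance : mm.IsPrime := RingHom.ker_isPrime ev0

theorem mm_le : mm ≤ Ideal.span {ra, rb, rc, rd, rz} := by
  set J : Ideal R0 := Ideal.span {ra, rb, rc, rd, rz} with hJ
  have hX : ∀ i : Fin 5, (Ideal.Quotient.mk I0 (MvPolynomial.X i) : R0) ∈ J := by
    intro i
    fin_cases i
    · exact Ideal.subset_span (by simp)
    · exact Ideal.subset_span (by simp)
    · exact Ideal.subset_span (by simp)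
    · exact Ideal.subset_span (by simp)
    · exact Ideal.subset_span (by simp)
  have key : ∀ p : Po, (Ideal.Quotient.mk I0 p : R0) -
      Ideal.Quotient.mk I0 (MvPolynomial.C (ev0 (Ideal.Quotient.mk I0 p))) ∈ J := by
    intro p
    induction p using MvPolynomial.induction_on with
    | C a =>
      have : ev0 (Ideal.Quotient.mk I0 (MvPolynomial.C a)) = a := by
        unfold ev0
        rw [toD_mk, MvPolynomial.aeval_C]
        rfl
      rw [this, sub_self]
      exact J.zero_mem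
    | add p q hp hq =>
      have := J.add_mem hp hq
      rw [map_add, map_add, map_add, map_add]
      convert this using 1
      ring
    | mul_X p i hp =>
      have : ev0 (Ideal.Quotient.mk I0 (p * MvPolynomial.X i)) = 0 := by
        rw [map_mul, map_mul]
        unfold ev0
        rw [toD_X, mul_zero]
      rw [this, map_zero, map_zero, sub_zero, map_mul]
      exact J.mul_mem_left _ (hX i)
  intro r hr
  obtain ⟨p, rfl⟩ := Ideal.Quotient.mk_surjective r
  have h := key p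
  rw [mm, RingHom.mem_ker] at hr
  rwa [hr, map_zero, map_zero, sub_zero] at h

end Pool.Agent.T9h65.Dim
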