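import Mathlib
import Pool.Agent.T9h65.Dim.ModN2

/-! The four exactness conditions for `N`. -/

set_option autoImplicit false

open Polynomial

namespace Pool.Agent.T9h65.Dim

theorem X_divX {f : ℚ[X]} (h : f.coeff 0 = 0) : X * f.divX = f := by
  have := Polynomial.X_mul_divX_add f
  rwa [h, C_0, add_zero] at this

theorem goodN_g2 : ∀ x1 x2 : NN, ra • x1 + rb • x2 = 0 →
    ∃ y1 y2 s1 s2 : NN, x1 = rz • y1 + rd • s1 + rb • s2 ∧ x2 = rz • y2 - rc • s1 - ra • s2 := by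
  intro x1 x2 hx
  obtain ⟨f, p1, p3, A1, A2, A3, B1, B2, B3, e, e', rfl⟩ := mk_surj x1
  obtain ⟨g, q1, q3, C1, C2, C3, D1, D2, D3, u, u', rfl⟩ := mk_surj x2
  rw [ra_smul, rb_smul, fa_mk, fb_mk, mk_add, mk_zero, mk_inj] at hx
  obtain ⟨-, -, -, h1, h2, h3, h4, h5, h6, h7, h8⟩ := hx
  have hf : f.coeff 0 = 0 := by linarith
  have hg : g.coeff 0 = 0 := by linarith
  refine ⟨mk f.divX A1 A2 0 0 0 0 0 0 0 0, mk g.divX (-D2) (-D1) 0 0 0 0 0 0 0 0,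
    mk (C (A3 - A1)) (B1 + A2 + D2 + C1) (-D2 - B3 - A2 - C3) 0 0 (-u' + D2) (e' + A1) 0 0 0 0,
    mk (C (B2 + A1)) (-D2 - C1) (B3 + A2) (-u + D1) 0 0 0 0 (e + A2) 0 0, ?_, ?_⟩
  · rw [rz_smul, rd_smul, rb_smul, fz_mk, fd_mk, fb_mk, mk_add, mk_add, mk_inj]
    refine ⟨?_, ?_, ?_, ?_, ?_, ?_, ?_, ?_, ?_, ?_, ?_⟩
    · rw [X_divX hf]; simp
    all_goals first | linarith | (simp only [coeff_C_zero]; linarith)
  · rw [rz_smul, rc_smul, ra_smul, fz_mk, fc_mk, fa_mk, mk_sub, mk_sub, mk_inj]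
    refine ⟨?_, ?_, ?_, ?_, ?_, ?_, ?_, ?_, ?_, ?_, ?_⟩
    · rw [X_divX hg]; simp
    all_goals first | linarith | (simp only [coeff_C_zero]; linarith)

theorem goodN : Good ra rb rc rd rz NN := by
  constructor
  · intro x hx
    obtain ⟨f, p1, p3, A1, A2, A3, B1, B2, B3, e, e', rfl⟩ := mk_surj x
    rw [rz_smul, fz_mk, mk_zero, mk_inj] at hx
    obtain ⟨h0, -, -, h1, h2, -⟩ := hx
    have hf : f = 0 := by
      rcases mul_eq_zero.1 h0 with h | h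
      · exact absurd h X_ne_zero
      · exact h
    refine ⟨mk (C A2) A1 A3 e 0 e' 0 0 0 0 0, mk (C B2) B1 B3 0 0 0 0 0 0 0 0, ?_⟩
    rw [ra_smul, rb_smul, fa_mk, fb_mk, mk_add, mk_inj]
    refine ⟨?_, ?_, ?_, ?_, ?_, ?_, ?_, ?_, ?_, ?_, ?_⟩
    · rw [hf]; simp
    all_goals first | linarith | (simp only [coeff_C_zero]; linarith)
  · exact goodN_g2
  · intro x1 x2 x3 x4 hx hy
    obtain ⟨f, p1, p3, A1, A2, A3, B1, B2, B3, e, e', rfl⟩ := mk_surj x1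
    obtain ⟨g, q1, q3, C1, C2, C3, D1, D2, D3, u, u', rfl⟩ := mk_surj x2
    obtain ⟨h, v1, v3, _, _, _, _, _, _, _, _, rfl⟩ := mk_surj x3
    obtain ⟨k, w1, w3, _, _, _, _, _, _, _, _, rfl⟩ := mk_surj x4
    rw [rd_smul, rb_smul, rz_smul, fd_mk, fb_mk, fz_mk, mk_add, mk_inj] at hx
    rw [rc_smul, ra_smul, rz_smul, fc_mk, fa_mk, fz_mk, mk_add, mk_inj] at hy
    obtain ⟨-, -, -, h1, h2, h3, h4, h5, h6, h7, h8⟩ := hx
    obtain ⟨-, -, -, k1, k2, k3, k4, k5, k6, k7, k8⟩ := hy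
    have hf : f.coeff 0 = 0 := by linarith
    have hg : g.coeff 0 = 0 := by linarith
    refine ⟨mk (C (-u - C2)) (A1 + C1 + e' + u') (A3 + C1 + e' + u') (e + A2 + u + C2) 0
        (-C1 - u') 0 0 0 0 0,
      mk (C (B2 - C1 - e' - u')) (-D1 + u) (B3 + A2 + u + C2) 0 0 0 0 0 0 0 0,
      mk f.divX (-C1 - e' - u') (A2 + u + C2) 0 0 0 0 0 0 0 0,
      mk g.divX C1 (-u) 0 0 0 0 0 0 0 0, ?_, ?_⟩
    · rw [rz_smul, ra_smul, rb_smul, fz_mk, fa_mk, fb_mk, mk_add, mk_add, mk_inj]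
      refine ⟨?_, ?_, ?_, ?_, ?_, ?_, ?_, ?_, ?_, ?_, ?_⟩
      · rw [X_divX hf]; simp
      all_goals first | linarith | (simp only [coeff_C_zero]; linarith)
    · rw [rz_smul, rc_smul, rd_smul, fz_mk, fc_mk, fd_mk, mk_sub, mk_sub, mk_inj]
      refine ⟨?_, ?_, ?_, ?_, ?_, ?_, ?_, ?_, ?_, ?_, ?_⟩
      · rw [X_divX hg]; simp
      all_goals first | linarith | (simp only [coeff_C_zero]; linarith)
  · intro x1 x2 x3 x4 hx hy
    have h0 : ra • x1 + rb • x2 = 0 := by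
      obtain ⟨f, p1, p3, A1, A2, A3, B1, B2, B3, e, e', rfl⟩ := mk_surj x1
      obtain ⟨g, q1, q3, C1, C2, C3, D1, D2, D3, u, u', rfl⟩ := mk_surj x2
      obtain ⟨h, v1, v3, _, _, _, _, _, _, _, _, rfl⟩ := mk_surj x3
      obtain ⟨k, w1, w3, _, _, _, _, _, _, _, _, rfl⟩ := mk_surj x4
      rw [ra_smul, rb_smul, rz_smul, fa_mk, fb_mk, fz_mk, mk_add, mk_inj] at hx
      rw [rc_smul, rd_smul, rz_smul, fc_mk, fd_mk, fz_mk, mk_add, mk_inj] at hy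
      obtain ⟨-, -, -, h1, h2, h3, h4, h5, h6, h7, h8⟩ := hx
      obtain ⟨-, -, -, k1, k2, k3, k4, k5, k6, k7, k8⟩ := hy
      rw [ra_smul, rb_smul, fa_mk, fb_mk, mk_add, mk_zero, mk_inj]
      refine ⟨?_, ?_, ?_, ?_, ?_, ?_, ?_, ?_, ?_, ?_, ?_⟩
      · simp
      all_goals linarith
    obtain ⟨y1, y2, s1, s2, e1, e2⟩ := goodN_g2 x1 x2 h0
    exact ⟨s1, s2, y1, y2, by rw [e1]; abel, e2⟩

end Pool.Agent.T9h65.Dim
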