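import Mathlib
import Pool.Agent.T9h65.Dim.FinN
import Pool.Agent.T9h65.Dim.GoodN

/-! The local ring `R`, the module `N` over it, and the dimension computations. -/

set_option autoImplicit false

open IsLocalRing TensorProduct

namespace Pool.Agent.T9h65.Dim

theorem good_change {R A X : Type} [CommRing R] [CommRing A] [Algebra R A] [AddCommGroup X]
    [Module R X] [Module A X] [IsScalarTower R A X] {a b c d z : R} (h : Good a b c d z X) :
    Good (algebraMap R A a) (algebraMap R A b) (algebraMap R A c) (algebraMap R A d)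
      (algebraMap R A z) X := by
  constructor
  · simpa only [algebraMap_smul] using h.g1
  · simpa only [algebraMap_smul] using h.g2
  · simpa only [algebraMap_smul] using h.g3
  · simpa only [algebraMap_smul] using h.g4

/-- the local ring -/
abbrev RL : Type := Localization.AtPrime mm

/-- the module over it -/
abbrev NL : Type := LocalizedModule mm.primeCompl NN

noncomputable abbrev la : RL := algebraMap R0 RL ra
noncomputable abbrev lb : RL := algebraMap R0 RL rb
noncomputable abbrev lc : RL := algebraMap R0 RL rc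
noncomputable abbrev ld : RL := algebraMap R0 RL rd
noncomputable abbrev lz : RL := algebraMap R0 RL rz

theorem vne : ¬ va ∣ vb := by
  rintro ⟨q, hq⟩
  have := congrArg (MvPolynomial.aeval (![0, 1, 0, 0, 0] : Fin 5 → ℚ)) hq
  simp [va, vb] at this

theorem vne2 : ¬ vz ∣ va * vd - vb * vc := by
  rintro ⟨q, hq⟩
  have := congrArg (MvPolynomial.aeval (![1, 0, 0, 1, 0] : Fin 5 → ℚ)) hq
  simp [va, vb, vc, vd, vz] at this

theorem goodR0 : Good ra rb rc rd rz R0 :=
  good_quot va vb vc vd vz MvPolynomial.X_prime MvPolynomial.X_prime vne vne2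

theorem goodRL : Good la lb lc ld lz RL :=
  good_change (good_loc mm.primeCompl (Algebra.linearMap R0 RL) goodR0)

theorem goodNL : Good la lb lc ld lz NL :=
  good_change (good_loc mm.primeCompl (LocalizedModule.mkLinearMap mm.primeCompl NN) goodN)

theorem r_rel1 : ra * rd = rb * rc := by
  rw [← sub_eq_zero, ← map_mul, ← map_mul, ← map_sub]
  exact Ideal.Quotient.eq_zero_iff_mem.2 (Ideal.subset_span (by simp))

theorem r_rel2 : rz * ra = 0 := by
  rw [← map_mul]
  exact Ideal.Quotient.eq_zero_iff_mem.2 (Ideal.subset_span (by simp))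

theorem r_rel3 : rz * rb = 0 := by
  rw [← map_mul]
  exact Ideal.Quotient.eq_zero_iff_mem.2 (Ideal.subset_span (by simp))

theorem l_rel1 : la * ld = lb * lc := by
  have := congrArg (algebraMap R0 RL) r_rel1
  rwa [map_mul, map_mul] at this
theorem l_rel2 : lz * la = 0 := by
  have := congrArg (algebraMap R0 RL) r_rel2
  rwa [map_mul, map_zero] at this
theorem l_rel3 : lz * lb = 0 := by
  have := congrArg (algebraMap R0 RL) r_rel3
  rwa [map_mul, map_zero] at this

theorem max_le (q : Ideal RL) (ha : la ∈ q) (hb : lb ∈ q) (hc : lc ∈ q) (hd : ld ∈ q)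
    (hz : lz ∈ q) : maximalIdeal RL ≤ q := by
  rw [← Localization.AtPrime.map_eq_maximalIdeal, Ideal.map_le_iff_le_comap]
  refine mm_le.trans ?_
  rw [Ideal.span_le]
  rintro x (rfl | rfl | rfl | rfl | rfl) <;> assumption

theorem gen_mem_max : la ∈ maximalIdeal RL ∧ lb ∈ maximalIdeal RL ∧ lc ∈ maximalIdeal RL ∧
    ld ∈ maximalIdeal RL ∧ lz ∈ maximalIdeal RL := by
  have key : ∀ i : Fin 5, algebraMap R0 RL (Ideal.Quotient.mk I0 (MvPolynomial.X i)) ∈
      maximalIdeal RL := by
    intro i
    rw [← Localization.AtPrime.map_eq_maximalIdeal]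
    apply Ideal.mem_map_of_mem
    rw [mm, RingHom.mem_ker, ev0, toD_X]
  exact ⟨key 0, key 1, key 2, key 3, key 4⟩

instance : IsNoetherianRing RL :=
  IsLocalization.isNoetherianRing mm.primeCompl RL inferInstance

theorem dimRL_le : ringKrullDim RL ≤ 3 := by
  obtain ⟨ha, hb, hc, hd, hz⟩ := gen_mem_max
  have h : maximalIdeal RL ∈ (Ideal.span ({ld, lb - lc, la + lz} : Set RL)).minimalPrimes := by
    refine ⟨⟨inferInstance, ?_⟩, ?_⟩
    · rw [Ideal.span_le]
      rintro x (rfl | rfl | rfl)
      · exact hd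
      · exact sub_mem hb hc
      · exact add_mem ha hz
    · rintro q ⟨hq, hs⟩ -
      have h1 : ld ∈ q := hs (Ideal.subset_span (by simp))
      have h2 : lb - lc ∈ q := hs (Ideal.subset_span (by simp))
      have h3 : la + lz ∈ q := hs (Ideal.subset_span (by simp))
      have hbc : lb * lc ∈ q := by rw [← l_rel1]; exact q.mul_mem_left _ h1
      have hb2 : lb * lb ∈ q := by
        have : lb * lb = lb * (lb - lc) + lb * lc := by ring
        rw [this]
        exact add_mem (q.mul_mem_left _ h2) hbc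
      have hb' : lb ∈ q := (hq.mem_or_mem hb2).elim id id
      have hc' : lc ∈ q := by
        have : lc = lb - (lb - lc) := by ring
        rw [this]
        exact sub_mem hb' h2
      have hz2 : lz * lz ∈ q := by
        have : lz * lz = lz * (la + lz) - lz * la := by ring
        rw [this, l_rel2, sub_zero]
        exact q.mul_mem_left _ h3
      have hz' : lz ∈ q := (hq.mem_or_mem hz2).elim id id
      have ha' : la ∈ q := by
        have : la = (la + lz) - lz := by ring
        rw [this]
        exact sub_mem h3 hz'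
      exact max_le q ha' hb' hc' h1 hz'
  have h2 := Ideal.height_le_card_of_mem_minimalPrimes_span (Set.toFinite _) h
  have h3 : ({ld, lb - lc, la + lz} : Set RL).ncard ≤ 3 := by
    refine (Set.ncard_insert_le _ _).trans ?_
    have := Set.ncard_insert_le (lb - lc) ({la + lz} : Set RL)
    rw [Set.ncard_singleton] at this
    omega
  rw [← IsLocalRing.maximalIdeal_height_eq_ringKrullDim]
  have h4 : (maximalIdeal RL).height ≤ 3 := h2.trans (by exact_mod_cast h3)
  exact WithBot.coe_le_coe.2 h4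

/-- primes of `R` from primes of `R₀` -/
noncomputable def PP (p : Ideal R0) [hp : p.IsPrime] (h : p ≤ mm) : PrimeSpectrum RL :=
  ⟨p.map (algebraMap R0 RL), Ideal.isPrime_map_of_isLocalizationAtPrime mm h⟩

theorem PP_under (p : Ideal R0) [hp : p.IsPrime] (h : p ≤ mm) :
    (PP p h).asIdeal.under R0 = p :=
  Ideal.under_map_of_isLocalizationAtPrime mm h

theorem PP_lt {p q : Ideal R0} [p.IsPrime] [q.IsPrime] (hp : p ≤ mm) (hq : q ≤ mm) (h : p < q) :
    PP p hp < PP q hq := by
  refine lt_of_le_of_ne (Ideal.map_mono h.le) ?_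
  intro e
  have h1 := PP_under p hp
  rw [e, PP_under q hq] at h1
  exact h.ne h1.symm

section chain

/-- coordinates on the chart -/
abbrev DD : Type := MvPolynomial (Fin 3) ℚ

noncomputable abbrev ds : DD := MvPolynomial.X 0
noncomputable abbrev dp : DD := MvPolynomial.X 1
noncomputable abbrev dq : DD := MvPolynomial.X 2

noncomputable def w0 : Fin 5 → DD := ![ds * dp, ds * dq, dp, dq, 0]
noncomputable def w1 : Fin 5 → DD := ![0, 0, dp, dq, 0]
noncomputable def w2 : Fin 5 → DD := ![0, 0, 0, dq, 0]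
noncomputable def w3 : Fin 5 → ℚ := ![0, 0, 0, 0, 0]

noncomputable def h0 : R0 →+* DD := toD w0 (by simp [w0]; ring) (by simp [w0]) (by simp [w0])
noncomputable def h1 : R0 →+* DD := toD w1 (by simp [w1]) (by simp [w1]) (by simp [w1])
noncomputable def h2 : R0 →+* DD := toD w2 (by simp [w2]) (by simp [w2]) (by simp [w2])

instance : (RingHom.ker h0).IsPrime := RingHom.ker_isPrime h0
instance : (RingHom.ker h1).IsPrime := RingHom.ker_isPrime h1
instance : (RingHom.ker h2).IsPrime := RingHom.ker_isPrime h2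

theorem k01 : RingHom.ker h0 ≤ RingHom.ker h1 := by
  refine toD_ker_le w0 _ _ _ w1 _ _ _ (MvPolynomial.aeval ![0, dp, dq]) ?_
  intro i
  fin_cases i <;> simp [w0, w1]

theorem k12 : RingHom.ker h1 ≤ RingHom.ker h2 := by
  refine toD_ker_le w1 _ _ _ w2 _ _ _ (MvPolynomial.aeval ![0, 0, dq]) ?_
  intro i
  fin_cases i <;> simp [w1, w2]

theorem k23 : RingHom.ker h2 ≤ mm := by
  refine toD_ker_le w2 _ _ _ (fun _ => (0 : ℚ)) _ _ _ (MvPolynomial.aeval ![0, 0, 0]) ?_
  intro i
  fin_cases i <;> simp [w2]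

theorem l01 : RingHom.ker h0 < RingHom.ker h1 := by
  refine lt_of_le_of_ne k01 fun e => ?_
  have h : ra ∈ RingHom.ker h1 := by
    rw [RingHom.mem_ker, h1, toD_X]
    rfl
  rw [← e, RingHom.mem_ker, h0, toD_X] at h
  simp [w0] at h

theorem l12 : RingHom.ker h1 < RingHom.ker h2 := by
  refine lt_of_le_of_ne k12 fun e => ?_
  have h : rc ∈ RingHom.ker h2 := by
    rw [RingHom.mem_ker, h2, toD_X]
    rfl
  rw [← e, RingHom.mem_ker, h1, toD_X] at h
  simp [w1] at h

theorem l23 : RingHom.ker h2 < mm := by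
  refine lt_of_le_of_ne k23 fun e => ?_
  have h : rd ∈ mm := by
    rw [mm, RingHom.mem_ker, ev0, toD_X]
  rw [← e, RingHom.mem_ker, h2, toD_X] at h
  simp [w2] at h

theorem z_mem0 : rz ∈ RingHom.ker h0 := by
  rw [RingHom.mem_ker, h0, toD_X]
  rfl

/-- `supp (R/z)` contains the primes coming from primes containing `z` -/
theorem mem_supp (p : Ideal R0) [hp : p.IsPrime] (h : p ≤ mm) (hz : rz ∈ p) :
    PP p h ∈ Module.support RL (Rz lz) := by
  rw [Module.mem_support_iff_of_finite, Ideal.annihilator_quotient, Ideal.span_le,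
    Set.singleton_subset_iff]
  exact Ideal.mem_map_of_mem _ hz

theorem dimM_ge : 3 ≤ Module.supportDim RL (Rz lz) := by
  have z0 := z_mem0
  have z1 := k01 z0
  have z2 := k12 z1
  have z3 := k23 z2
  let c : Fin 4 → Module.support RL (Rz lz) :=
    ![⟨PP _ (k01.trans (k12.trans k23)), mem_supp _ _ z0⟩, ⟨PP _ (k12.trans k23), mem_supp _ _ z1⟩,
      ⟨PP _ k23, mem_supp _ _ z2⟩, ⟨PP mm le_rfl, mem_supp _ _ z3⟩]
  have hc : StrictMono c := by
    rw [Fin.strictMono_iff_lt_succ]
    intro i
    fin_cases i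
    · exact PP_lt (k01.trans (k12.trans k23)) (k12.trans k23) l01
    · exact PP_lt (k12.trans k23) k23 l12
    · exact PP_lt k23 le_rfl l23
  exact Order.le_krullDim_iff.2 ⟨LTSeries.mk 3 c hc, rfl⟩

end chain

section curve

open Polynomial

noncomputable def wz : Fin 5 → ℚ[X] := ![0, 0, 0, 0, X]

/-- restriction to the `z`-axis -/
noncomputable def hz : R0 →+* ℚ[X] := toD wz (by simp [wz]) (by simp [wz]) (by simp [wz])

instance : (RingHom.ker hz).IsPrime := RingHom.ker_isPrime hz

theorem kz : RingHom.ker hz ≤ mm := by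
  refine toD_ker_le wz _ _ _ (fun _ => (0 : ℚ)) _ _ _ (Polynomial.aeval 0) ?_
  intro i
  fin_cases i <;> simp [wz]

theorem lzm : RingHom.ker hz < mm := by
  refine lt_of_le_of_ne kz fun e => ?_
  have h : rz ∈ mm := by
    rw [mm, RingHom.mem_ker, ev0, toD_X]
  rw [← e, RingHom.mem_ker, hz, toD_X] at h
  simp [wz] at h

theorem fst_smul (r : R0) (n : NN) : (r • n).1 = hz r * n.1 := by
  obtain ⟨p, rfl⟩ := Ideal.Quotient.mk_surjective r
  induction p using MvPolynomial.induction_on generalizing n with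
  | C a =>
    rw [rC_smul, hz, toD_mk, MvPolynomial.aeval_C, Prod.smul_fst, Polynomial.smul_eq_C_mul]
    rfl
  | add p q hp hq =>
    rw [map_add, add_smul, Prod.fst_add, hp, hq, map_add, add_mul]
  | mul_X p i hp =>
    rw [map_mul, mul_smul, hp, map_mul, mul_assoc]
    congr 1
    obtain ⟨f, p1, p3, A1, A2, A3, B1, B2, B3, e, e', rfl⟩ := mk_surj n
    rw [hz, toD_X]
    fin_cases i
    · exact (congrArg Prod.fst ((ra_smul _).trans (fa_mk _ _ _ _ _ _ _ _ _ _ _))).trans
        (by simp [wz])
    · exact (congrArg Prod.fst ((rb_smul _).trans (fb_mk _ _ _ _ _ _ _ _ _ _ _))).trans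
        (by simp [wz])
    · exact (congrArg Prod.fst ((rc_smul _).trans (fc_mk _ _ _ _ _ _ _ _ _ _ _))).trans
        (by simp [wz])
    · exact (congrArg Prod.fst ((rd_smul _).trans (fd_mk _ _ _ _ _ _ _ _ _ _ _))).trans
        (by simp [wz])
    · exact (congrArg Prod.fst ((rz_smul _).trans (fz_mk _ _ _ _ _ _ _ _ _ _ _))).trans
        (by simp [wz])

theorem mem_suppN : PP (RingHom.ker hz) kz ∈ Module.support RL NL := by
  rw [Module.mem_support_iff']
  refine ⟨LocalizedModule.mkLinearMap mm.primeCompl NN m2, ?_⟩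
  intro r hr h
  obtain ⟨r0, s, rfl⟩ := IsLocalization.exists_mk'_eq mm.primeCompl r
  apply hr
  have h1 : (r0 : R0) • (LocalizedModule.mkLinearMap mm.primeCompl NN m2) = 0 := by
    rw [← algebraMap_smul RL r0, ← IsLocalization.mk'_spec RL r0 s, mul_comm, mul_smul, h,
      smul_zero]
  rw [← map_smul, ← map_zero (LocalizedModule.mkLinearMap mm.primeCompl NN),
    IsLocalizedModule.eq_iff_exists mm.primeCompl] at h1
  obtain ⟨u, hu⟩ := h1
  rw [smul_zero, Submonoid.smul_def, smul_smul] at hu
  have h2 := congrArg Prod.fst hu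
  rw [fst_smul, Prod.fst_zero, mul_one, map_mul] at h2
  have h3 : hz (u : R0) ≠ 0 := fun h => u.2 (kz h)
  have h4 : hz r0 = 0 := (mul_eq_zero.1 h2).resolve_left h3
  exact (IsLocalization.mk'_mem_map_algebraMap_iff mm.primeCompl RL _ r0 s).2
    ⟨1, by simpa using h4⟩

theorem dimN_ge : 1 ≤ Module.supportDim RL NL := by
  refine Order.one_le_krullDim_iff.2 ⟨⟨_, mem_suppN⟩,
    ⟨PP mm le_rfl, Module.mem_support_mono (PP_lt kz le_rfl lzm).le mem_suppN⟩, ?_⟩
  exact PP_lt kz le_rfl lzm

end curve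

section tens

theorem nil_a (n : NN) : ra • ra • ra • n = 0 := by
  obtain ⟨f, p1, p3, A1, A2, A3, B1, B2, B3, e, e', rfl⟩ := mk_surj n
  simp only [ra_smul, fa_mk, Polynomial.coeff_zero, add_zero]
  rfl
theorem nil_b (n : NN) : rb • rb • rb • n = 0 := by
  obtain ⟨f, p1, p3, A1, A2, A3, B1, B2, B3, e, e', rfl⟩ := mk_surj n
  simp only [rb_smul, fb_mk, Polynomial.coeff_zero, add_zero]
  rfl
theorem nil_c (n : NN) : rc • rc • rc • n = 0 := by
  obtain ⟨f, p1, p3, A1, A2, A3, B1, B2, B3, e, e', rfl⟩ := mk_surj n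
  simp only [rc_smul, fc_mk, Polynomial.coeff_zero, add_zero, neg_zero]
  rfl
theorem nil_d (n : NN) : rd • rd • rd • n = 0 := by
  obtain ⟨f, p1, p3, A1, A2, A3, B1, B2, B3, e, e', rfl⟩ := mk_surj n
  simp only [rd_smul, fd_mk, Polynomial.coeff_zero, add_zero]
  rfl

theorem nil_loc (r : R0) (h : ∀ n : NN, r • r • r • n = 0) (n : NL) :
    ((algebraMap R0 RL r) ^ 3) • n = 0 := by
  rw [← map_pow, algebraMap_smul]
  obtain ⟨⟨m, s⟩, hm⟩ := IsLocalizedModule.surj mm.primeCompl
    (LocalizedModule.mkLinearMap mm.primeCompl NN) n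
  apply scale mm.primeCompl (LocalizedModule.mkLinearMap mm.primeCompl NN) s
  simp only [Submonoid.smul_def] at hm
  rw [smul_comm, hm, ← map_smul, smul_zero, pow_succ, pow_two, mul_smul, mul_smul, h, map_zero]

theorem mem_of_nil (P : PrimeSpectrum RL) (hP : P ∈ Module.support RL (Rz lz ⊗[RL] NL))
    (r : RL) (h : ∀ n : NL, r ^ 3 • n = 0) : r ∈ P.asIdeal := by
  apply P.2.mem_of_pow_mem 3
  apply Module.annihilator_le_of_mem_support hP
  rw [Module.mem_annihilator]
  intro t
  induction t with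
  | zero => rw [smul_zero]
  | tmul x n => rw [← TensorProduct.tmul_smul, h, TensorProduct.tmul_zero]
  | add x y hx hy => rw [smul_add, hx, hy, add_zero]

theorem z_mem_supp (P : PrimeSpectrum RL) (hP : P ∈ Module.support RL (Rz lz ⊗[RL] NL)) :
    lz ∈ P.asIdeal := by
  apply Module.annihilator_le_of_mem_support hP
  rw [Module.mem_annihilator]
  intro t
  induction t with
  | zero => rw [smul_zero]
  | tmul x n => rw [TensorProduct.smul_tmul', z_smul_Rz, TensorProduct.zero_tmul]
  | add x y hx hy => rw [smul_add, hx, hy, add_zero]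

theorem dimT_le : Module.supportDim RL (Rz lz ⊗[RL] NL) ≤ 0 := by
  have h : ∀ P : PrimeSpectrum RL, P ∈ Module.support RL (Rz lz ⊗[RL] NL) →
      P.asIdeal = maximalIdeal RL := by
    intro P hP
    refine le_antisymm (IsLocalRing.le_maximalIdeal P.2.ne_top) ?_
    exact max_le _ (mem_of_nil P hP _ (nil_loc _ nil_a)) (mem_of_nil P hP _ (nil_loc _ nil_b))
      (mem_of_nil P hP _ (nil_loc _ nil_c)) (mem_of_nil P hP _ (nil_loc _ nil_d))
      (z_mem_supp P hP)
  have : Subsingleton (Module.support RL (Rz lz ⊗[RL] NL)) := by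
    constructor
    rintro ⟨P, hP⟩ ⟨Q, hQ⟩
    apply Subtype.ext
    apply PrimeSpectrum.ext
    rw [h P hP, h Q hQ]
  exact Order.krullDim_nonpos_of_subsingleton

end tens

instance finNL : Module.Finite RL NL :=
  Module.Finite.of_isLocalizedModule mm.primeCompl (LocalizedModule.mkLinearMap mm.primeCompl NN)

end Pool.Agent.T9h65.Dim
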