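import Mathlib
import Pool.Agent.T9h65.Dim.Chain

/-! The short exact sequences and the induction. -/

set_option autoImplicit false

open TensorProduct LinearMap

namespace Pool.Agent.T9h65.Dim

section ses

variable {R : Type} [CommRing R] {a b c d z : R}

theorem mz_eq_zero {z r : R} (h : mz z r = 0) : ∃ w : R, r = z * w := by
  rw [mz, Ideal.Quotient.eq_zero_iff_mem, Ideal.mem_span_singleton] at h
  exact h

theorem surj_pair {P : Type} [AddCommGroup P] [Module R P] (u v : P) (hu : z • u = 0)
    (hv : z • v = 0) (h : ∀ p : P, ∃ r1 r2 : R, p = r1 • u + r2 • v) :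
    Function.Surjective (LinearMap.coprod (lift1 z u hu) (lift1 z v hv)) := by
  intro p
  obtain ⟨r1, r2, rfl⟩ := h p
  exact ⟨(mz z r1, mz z r2), by rw [LinearMap.coprod_apply, lift1_mz, lift1_mz]⟩

theorem pair_rep (t : Rz z × Rz z) : ∃ r1 r2 : R, t = (mz z r1, mz z r2) := by
  obtain ⟨t1, t2⟩ := t
  obtain ⟨r1, rfl⟩ := Ideal.Quotient.mk_surjective t1
  obtain ⟨r2, rfl⟩ := Ideal.Quotient.mk_surjective t2
  exact ⟨r1, r2, rfl⟩

theorem exact_gamma (h1 : a * d = b * c) (h2 : z * a = 0) (h3 : z * b = 0)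
    (hR : Good a b c d z R) :
    Function.Exact (P1 a b c d z).subtype
      (LinearMap.coprod (lift1 z (i1 a b) (Subtype.ext h2)) (lift1 z (i2 a b) (Subtype.ext h3))) := by
  intro t
  constructor
  · intro h
    obtain ⟨r1, r2, rfl⟩ := pair_rep t
    rw [LinearMap.coprod_apply, lift1_mz, lift1_mz] at h
    have h4 : a • r1 + b • r2 = 0 := by
      have := congrArg Subtype.val h
      have h5 : r1 * a + r2 * b = 0 := this
      simp only [smul_eq_mul]
      linear_combination h5
    obtain ⟨y1, y2, s1, s2, e1, e2⟩ := hR.g2 r1 r2 h4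
    refine ⟨s1 • f1 a b c d z + s2 • f2 a b c d z, ?_⟩
    show ((mz z (s1 * d) + mz z (s2 * b), mz z (s1 * (-c)) + mz z (s2 * (-a))) : Rz z × Rz z) = _
    simp only [smul_eq_mul] at e1 e2
    rw [e1, e2]
    ext
    · show _ = mz z (z * y1 + d * s1 + b * s2)
      simp only [mz, map_add, map_mul]
      have := mz_zero z
      rw [mz] at this
      rw [this]; ring
    · show _ = mz z (z * y2 - c * s1 - a * s2)
      simp only [mz, map_sub, map_mul, map_neg]
      have := mz_zero z
      rw [mz] at this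
      rw [this]; ring
  · rintro ⟨p, rfl⟩
    obtain ⟨r1, r2, rfl⟩ := gen1 a b c d z p
    have k3 : d • i1 a b + (-c) • i2 a b = 0 := Subtype.ext (by
      show d * a + (-c) * b = 0
      linear_combination h1)
    have k4 : b • i1 a b + (-a) • i2 a b = 0 := Subtype.ext (by
      show b * a + (-a) * b = 0
      ring)
    have e1 : (LinearMap.coprod (lift1 z (i1 a b) (Subtype.ext h2))
        (lift1 z (i2 a b) (Subtype.ext h3))) (f1 a b c d z : Rz z × Rz z) = 0 := by
      refine Eq.trans ?_ k3
      rw [LinearMap.coprod_apply]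
      exact congrArg₂ (· + ·) (lift1_mz _ _ _ _) (lift1_mz _ _ _ _)
    have e2 : (LinearMap.coprod (lift1 z (i1 a b) (Subtype.ext h2))
        (lift1 z (i2 a b) (Subtype.ext h3))) (f2 a b c d z : Rz z × Rz z) = 0 := by
      refine Eq.trans ?_ k4
      rw [LinearMap.coprod_apply]
      exact congrArg₂ (· + ·) (lift1_mz _ _ _ _) (lift1_mz _ _ _ _)
    rw [map_add, map_smul, map_smul, Submodule.subtype_apply, Submodule.subtype_apply, map_add,
      map_smul, map_smul, e1, e2, smul_zero, smul_zero, add_zero]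

theorem exact_delta (h1 : a * d = b * c) (hR : Good a b c d z R) :
    Function.Exact (P2 a b c d z).subtype
      (LinearMap.coprod (lift1 z (f1 a b c d z) (zsmul_sub z _ _))
        (lift1 z (f2 a b c d z) (zsmul_sub z _ _))) := by
  intro t
  constructor
  · intro h
    obtain ⟨r1, r2, rfl⟩ := pair_rep t
    rw [LinearMap.coprod_apply, lift1_mz, lift1_mz] at h
    have h0 := congrArg Subtype.val h
    have h5 : mz z (r1 * d) + mz z (r2 * b) = 0 := congrArg Prod.fst h0
    have h6 : mz z (r1 * (-c)) + mz z (r2 * (-a)) = 0 := congrArg Prod.snd h0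
    rw [mz, mz, ← map_add] at h5 h6
    obtain ⟨w1, hw1⟩ := mz_eq_zero h5
    obtain ⟨w2, hw2⟩ := mz_eq_zero h6
    obtain ⟨t1, t2, y1, y2, e1', e2'⟩ := hR.g3 r1 r2 w1 (-w2)
      (by simp only [smul_eq_mul]; linear_combination hw1)
      (by simp only [smul_eq_mul]; linear_combination -hw2)
    refine ⟨t1 • e1 a b c d z + t2 • e2 a b c d z, ?_⟩
    show ((mz z (t1 * a) + mz z (t2 * b), mz z (t1 * (-c)) + mz z (t2 * (-d))) : Rz z × Rz z) = _
    simp only [smul_eq_mul] at e1' e2'
    rw [e1', e2']
    ext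
    · show _ = mz z (a * t1 + b * t2 + z * y1)
      simp only [mz, map_add, map_mul]
      have := mz_zero z
      rw [mz] at this
      rw [this]; ring
    · show _ = mz z (z * y2 - c * t1 - d * t2)
      simp only [mz, map_sub, map_mul, map_neg]
      have := mz_zero z
      rw [mz] at this
      rw [this]; ring
  · rintro ⟨p, rfl⟩
    obtain ⟨r1, r2, rfl⟩ := gen2 a b c d z p
    have k3 : a • f1 a b c d z + (-c) • f2 a b c d z = 0 := Subtype.ext (by
      ext
      · show mz z (a * d + (-c) * b) = 0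
        rw [show a * d + (-c) * b = 0 by linear_combination h1]; exact map_zero _
      · show mz z (a * (-c) + (-c) * (-a)) = 0
        rw [show a * (-c) + (-c) * (-a) = 0 by ring]; exact map_zero _)
    have k4 : b • f1 a b c d z + (-d) • f2 a b c d z = 0 := Subtype.ext (by
      ext
      · show mz z (b * d + (-d) * b) = 0
        rw [show b * d + (-d) * b = 0 by ring]; exact map_zero _
      · show mz z (b * (-c) + (-d) * (-a)) = 0
        rw [show b * (-c) + (-d) * (-a) = 0 by linear_combination h1]; exact map_zero _)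
    have e1' : (LinearMap.coprod (lift1 z (f1 a b c d z) (zsmul_sub z _ _))
        (lift1 z (f2 a b c d z) (zsmul_sub z _ _))) (e1 a b c d z : Rz z × Rz z) = 0 := by
      refine Eq.trans ?_ k3
      rw [LinearMap.coprod_apply]
      exact congrArg₂ (· + ·) (lift1_mz _ _ _ _) (lift1_mz _ _ _ _)
    have e2' : (LinearMap.coprod (lift1 z (f1 a b c d z) (zsmul_sub z _ _))
        (lift1 z (f2 a b c d z) (zsmul_sub z _ _))) (e2 a b c d z : Rz z × Rz z) = 0 := by
      refine Eq.trans ?_ k4
      rw [LinearMap.coprod_apply]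
      exact congrArg₂ (· + ·) (lift1_mz _ _ _ _) (lift1_mz _ _ _ _)
    rw [map_add, map_smul, map_smul, Submodule.subtype_apply, Submodule.subtype_apply, map_add,
      map_smul, map_smul, e1', e2', smul_zero, smul_zero, add_zero]

theorem exact_eps (h1 : a * d = b * c) (hR : Good a b c d z R) :
    Function.Exact (P1 a b c d z).subtype
      (LinearMap.coprod (lift1 z (e1 a b c d z) (zsmul_sub z _ _))
        (lift1 z (e2 a b c d z) (zsmul_sub z _ _))) := by
  intro t
  constructor
  · intro h
    obtain ⟨r1, r2, rfl⟩ := pair_rep t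
    rw [LinearMap.coprod_apply, lift1_mz, lift1_mz] at h
    have h0 := congrArg Subtype.val h
    have h5 : mz z (r1 * a) + mz z (r2 * b) = 0 := congrArg Prod.fst h0
    have h6 : mz z (r1 * (-c)) + mz z (r2 * (-d)) = 0 := congrArg Prod.snd h0
    rw [mz, mz, ← map_add] at h5 h6
    obtain ⟨w1, hw1⟩ := mz_eq_zero h5
    obtain ⟨w2, hw2⟩ := mz_eq_zero h6
    obtain ⟨s1, s2, y1, y2, e1', e2'⟩ := hR.g4 r1 r2 w1 (-w2)
      (by simp only [smul_eq_mul]; linear_combination hw1)
      (by simp only [smul_eq_mul]; linear_combination -hw2)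
    refine ⟨s1 • f1 a b c d z + s2 • f2 a b c d z, ?_⟩
    show ((mz z (s1 * d) + mz z (s2 * b), mz z (s1 * (-c)) + mz z (s2 * (-a))) : Rz z × Rz z) = _
    simp only [smul_eq_mul] at e1' e2'
    rw [e1', e2']
    ext
    · show _ = mz z (d * s1 + b * s2 + z * y1)
      simp only [mz, map_add, map_mul]
      have := mz_zero z
      rw [mz] at this
      rw [this]; ring
    · show _ = mz z (z * y2 - c * s1 - a * s2)
      simp only [mz, map_sub, map_mul, map_neg]
      have := mz_zero z
      rw [mz] at this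
      rw [this]; ring
  · rintro ⟨p, rfl⟩
    obtain ⟨r1, r2, rfl⟩ := gen1 a b c d z p
    have k3 : d • e1 a b c d z + (-c) • e2 a b c d z = 0 := Subtype.ext (by
      ext
      · show mz z (d * a + (-c) * b) = 0
        rw [show d * a + (-c) * b = 0 by linear_combination h1]; exact map_zero _
      · show mz z (d * (-c) + (-c) * (-d)) = 0
        rw [show d * (-c) + (-c) * (-d) = 0 by ring]; exact map_zero _)
    have k4 : b • e1 a b c d z + (-a) • e2 a b c d z = 0 := Subtype.ext (by
      ext
      · show mz z (b * a + (-a) * b) = 0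
        rw [show b * a + (-a) * b = 0 by ring]; exact map_zero _
      · show mz z (b * (-c) + (-a) * (-d)) = 0
        rw [show b * (-c) + (-a) * (-d) = 0 by linear_combination h1]; exact map_zero _)
    have e1' : (LinearMap.coprod (lift1 z (e1 a b c d z) (zsmul_sub z _ _))
        (lift1 z (e2 a b c d z) (zsmul_sub z _ _))) (f1 a b c d z : Rz z × Rz z) = 0 := by
      refine Eq.trans ?_ k3
      rw [LinearMap.coprod_apply]
      exact congrArg₂ (· + ·) (lift1_mz _ _ _ _) (lift1_mz _ _ _ _)
    have e2' : (LinearMap.coprod (lift1 z (e1 a b c d z) (zsmul_sub z _ _))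
        (lift1 z (e2 a b c d z) (zsmul_sub z _ _))) (f2 a b c d z : Rz z × Rz z) = 0 := by
      refine Eq.trans ?_ k4
      rw [LinearMap.coprod_apply]
      exact congrArg₂ (· + ·) (lift1_mz _ _ _ _) (lift1_mz _ _ _ _)
    rw [map_add, map_smul, map_smul, Submodule.subtype_apply, Submodule.subtype_apply, map_add,
      map_smul, map_smul, e1', e2', smul_zero, smul_zero, add_zero]

theorem exact_alpha (h2 : z * a = 0) (h3 : z * b = 0) :
    Function.Exact (mulz (a := a) (b := b) (z := z) h2 h3) (Ideal.span {z}).mkQ := by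
  intro t
  rw [Submodule.mkQ_apply, Submodule.Quotient.mk_eq_zero, Ideal.mem_span_singleton']
  constructor
  · rintro ⟨w, rfl⟩
    exact ⟨Ideal.Quotient.mk _ w, mulz_mk h2 h3 w⟩
  · rintro ⟨w, rfl⟩
    obtain ⟨r, rfl⟩ := Ideal.Quotient.mk_surjective w
    exact ⟨r, (mulz_mk h2 h3 r).symm⟩

theorem mulz_inj (h2 : z * a = 0) (h3 : z * b = 0) (hR : Good a b c d z R) :
    Function.Injective (mulz (a := a) (b := b) (z := z) h2 h3) := by
  rw [injective_iff_map_eq_zero]
  intro w hw
  obtain ⟨r, rfl⟩ := Ideal.Quotient.mk_surjective w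
  rw [mulz_mk] at hw
  obtain ⟨p, q, h⟩ := hR.g1 r (by rw [smul_eq_mul, mul_comm]; exact hw)
  rw [Ideal.Quotient.eq_zero_iff_mem, h]
  exact Ideal.add_mem _ (Ideal.mul_mem_right _ _ (Ideal.subset_span (by simp)))
    (Ideal.mul_mem_right _ _ (Ideal.subset_span (by simp)))

end ses

/-- The main point: all higher `Tor_i(R/z, N)` vanish. -/
theorem all_vanish {R : Type} [CommRing R] {a b c d z : R} (h1 : a * d = b * c)
    (h2 : z * a = 0) (h3 : z * b = 0) (hR : Good a b c d z R)
    {N : Type} [AddCommGroup N] [Module R N] (hN : Good a b c d z N)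
    {F : ℕ → Type} [∀ i, AddCommGroup (F i)] [∀ i, Module R (F i)] [∀ i, Module.Flat R (F i)]
    (D : ∀ i, F (i + 1) →ₗ[R] F i) (hD : ∀ i, Function.Exact (D (i + 1)) (D i))
    (ε : F 0 →ₗ[R] N) (h0 : Function.Exact (D 0) ε) (hε : Function.Surjective ε) (i : ℕ) :
    TV D (Rz z) i := by
  have e0 : Function.Exact (P0 a b).subtype (P0 a b).mkQ := LinearMap.exact_subtype_mkQ _
  have main : ∀ i, TV D (Rz z) i ∧ TV D (R ⧸ P0 a b) i ∧ TV D (P0 a b) i ∧
      TV D (P1 a b c d z) i ∧ TV D (P2 a b c d z) i := by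
    intro i
    induction i with
    | zero =>
      have t1 : TV D (Rz z) 0 := shift_zero D hD ε h0 hε (mulz (a := a) (b := b) h2 h3)
        (Ideal.span {z}).mkQ (Submodule.mkQ_surjective _) (exact_alpha h2 h3)
        (inj_alpha h2 h3 hN) (tv_flat D hD 0)
      have t11 : TV D (Rz z × Rz z) 0 := tv_prod D hD 0 t1 t1
      have t2 : TV D (R ⧸ P0 a b) 0 := shift_zero D hD ε h0 hε (P0 a b).subtype (P0 a b).mkQ
        (Submodule.mkQ_surjective _) e0 (inj_beta h1 h2 h3 hN) (tv_flat D hD 0)
      have t3 : TV D (P0 a b) 0 := shift_zero D hD ε h0 hε (P1 a b c d z).subtype _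
        (surj_pair _ _ _ _ (gen0 a b)) (exact_gamma h1 h2 h3 hR) (inj_gamma h1 hN) t11
      have t4 : TV D (P1 a b c d z) 0 := shift_zero D hD ε h0 hε (P2 a b c d z).subtype _
        (surj_pair _ _ _ _ (gen1 a b c d z)) (exact_delta h1 hR) (inj_delta h1 hN) t11
      have t5 : TV D (P2 a b c d z) 0 := shift_zero D hD ε h0 hε (P1 a b c d z).subtype _
        (surj_pair _ _ _ _ (gen2 a b c d z)) (exact_eps h1 hR) (inj_gamma h1 hN) t11
      exact ⟨t1, t2, t3, t4, t5⟩
    | succ i ih =>
      obtain ⟨u1, u2, u3, u4, u5⟩ := ih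
      have t1 : TV D (Rz z) (i + 1) := shift_succ D hD (mulz (a := a) (b := b) h2 h3)
        (Ideal.span {z}).mkQ (mulz_inj h2 h3 hR) (Submodule.mkQ_surjective _) (exact_alpha h2 h3)
        i u2 (tv_flat D hD _)
      have t11 : TV D (Rz z × Rz z) (i + 1) := tv_prod D hD _ t1 t1
      have t2 : TV D (R ⧸ P0 a b) (i + 1) := shift_succ D hD (P0 a b).subtype (P0 a b).mkQ
        (Submodule.subtype_injective _) (Submodule.mkQ_surjective _) e0 i u3 (tv_flat D hD _)
      have t3 : TV D (P0 a b) (i + 1) := shift_succ D hD (P1 a b c d z).subtype _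
        (Submodule.subtype_injective _)
        (surj_pair _ _ _ _ (gen0 a b)) (exact_gamma h1 h2 h3 hR) i u4 t11
      have t4 : TV D (P1 a b c d z) (i + 1) := shift_succ D hD (P2 a b c d z).subtype _
        (Submodule.subtype_injective _)
        (surj_pair _ _ _ _ (gen1 a b c d z)) (exact_delta h1 hR) i u5 t11
      have t5 : TV D (P2 a b c d z) (i + 1) := shift_succ D hD (P1 a b c d z).subtype _
        (Submodule.subtype_injective _)
        (surj_pair _ _ _ _ (gen2 a b c d z)) (exact_eps h1 hR) i u4 t11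
      exact ⟨t1, t2, t3, t4, t5⟩
  exact (main i).1

end Pool.Agent.T9h65.Dim
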